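import Pool.Agent.H47.BL.T.Sec

set_option autoImplicit false

/-! BL-CMP (helper29) -/

namespace Pool.Agent.H47.BL.CMP

open Matrix Polynomial Filter Topology
open Pool.Agent.H47.BL.Sec

variable {n : ℕ}

/-- the number of the zeros before `x` as a sector -/
theorem zb_sector (V : Matrix (Fin n) (Fin n) ℝ) {x α y : ℝ} (hx : x ≤ Real.pi)
    (h1 : -Real.pi < α) (hy : y < x)
    (hα : ∀ w ∈ (pol V).roots, w ≠ 0 → ¬ w.arg ≤ α)
    (hyr : ∀ w ∈ (pol V).roots, w ≠ 0 → ¬ (y ≤ w.arg ∧ w.arg < x)) :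
    zb (pol V) x = Z V α y := by
  classical
  unfold zb Z
  congr 1
  refine Multiset.filter_congr fun w hw => ?_
  rw [sector_iff (by linarith) (by linarith)]
  constructor
  · rintro ⟨a1, a2⟩
    refine ⟨a1, not_le.1 (hα w hw a1), ?_⟩
    by_contra hcon
    exact hyr w hw a1 ⟨not_lt.1 hcon, a2⟩
  · rintro ⟨a1, -, a3⟩
    exact ⟨a1, a3.trans hy⟩

theorem nul_zero (hM : S_MULT) {V : Matrix (Fin n) (Fin n) ℝ} (hV : pol V ≠ 0) {θ : ℝ}
    (h : e θ ∉ (pol V).roots) : nul (H V θ) = 0 := by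
  have h1 := hM n V θ hV
  have h2 : (pol V).rootMultiplicity (e θ) = 0 := by
    rw [Polynomial.rootMultiplicity_eq_zero]
    intro hr
    exact h ((Polynomial.mem_roots hV).2 hr)
  omega

theorem arg_e' {θ : ℝ} (h1 : -Real.pi < θ) (h2 : θ ≤ Real.pi) : (e θ).arg = θ := by
  have := arg_e (θ := θ) (r := 1) one_pos h1 h2
  rwa [Complex.ofReal_one, one_mul] at this

theorem half (h1 : S_SW1) (h2 : S_SW2) (h3 : S_SW3) (hT : S_TOT) (hR : S_REFL) (hM : S_MULT)
    (m κ : ℕ) (V W : Matrix (Fin n) (Fin n) ℝ) (hV : pol V ≠ 0) (hW : pol W ≠ 0)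
    (hVW : ∀ θ, neg (H V θ) ≤ neg (H W θ) + m ∧ neg (H W θ) ≤ neg (H V θ) + m)
    (kV : neg (H V 0) ≤ κ) (kW : neg (H W 0) ≤ κ) (x : ℝ) :
    zb (pol V) x ≤ zb (pol W) x + (2 * m + 2 * κ) := by
  classical
  have hpi := Real.pi_pos
  rcases le_or_gt x (-Real.pi) with hx | hx
  · have h0 : zb (pol V) x = 0 := by
      unfold zb
      rw [Multiset.card_eq_zero, Multiset.filter_eq_nil]
      rintro w - ⟨-, hw⟩
      linarith [Complex.neg_pi_lt_arg w]
    omega
  rcases lt_or_ge Real.pi x with hx2 | hx2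
  · have e1 : ∀ U : Matrix (Fin n) (Fin n) ℝ, zb (pol U) x = zb (pol U) 4 := by
      intro U
      unfold zb
      congr 1
      refine Multiset.filter_congr fun w _ => ?_
      have a1 := Complex.arg_le_pi w
      have a2 := Real.pi_lt_four
      constructor
      · rintro ⟨b1, -⟩
        exact ⟨b1, by linarith⟩
      · rintro ⟨b1, -⟩
        exact ⟨b1, by linarith⟩
    rw [e1 V, e1 W]
    have t1 := (hT n V hV).2
    have t2 := (hT n W hW).1
    omega
  -- the choice of the angles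
  set A : Finset ℂ := (pol V).roots.toFinset ∪ (pol W).roots.toFinset with hA
  have hAV : ∀ w ∈ (pol V).roots, w ∈ A := fun w hw => by
    rw [hA, Finset.mem_union, Multiset.mem_toFinset]; exact Or.inl hw
  have hAW : ∀ w ∈ (pol W).roots, w ∈ A := fun w hw => by
    rw [hA, Finset.mem_union, Multiset.mem_toFinset, Multiset.mem_toFinset]; exact Or.inr hw
  have ey1 : ∀ᶠ y in 𝓝[<] x, ∀ w ∈ A, ¬ (y ≤ w.arg ∧ w.arg < x) := by
    refine (Filter.eventually_all_finset A).2 fun w _ => ?_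
    rcases lt_or_ge w.arg x with h | h
    · filter_upwards [Ioo_mem_nhdsLT h] with y hy
      rintro ⟨a1, -⟩
      linarith [hy.1]
    · exact Eventually.of_forall fun y => fun ⟨_, a2⟩ => by linarith
  have ey2 : ∀ᶠ y in 𝓝[<] x, y ∈ Set.Ioo (-Real.pi) x := Ioo_mem_nhdsLT hx
  have ey3 : ∀ᶠ y in 𝓝[<] x, (0 < x → 0 < y) := by
    by_cases h : 0 < x
    · filter_upwards [Ioo_mem_nhdsLT h] with y hy _
      exact hy.1
    · exact Eventually.of_forall fun y h' => absurd h' h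
  obtain ⟨y, y1, y2, y3⟩ := (ey1.and (ey2.and ey3)).exists
  have ea1 : ∀ᶠ α in 𝓝[>] (-Real.pi), ∀ w ∈ A, w ≠ 0 → ¬ (w.arg ≤ α) := by
    refine (Filter.eventually_all_finset A).2 fun w _ => ?_
    filter_upwards [Ioo_mem_nhdsGT (Complex.neg_pi_lt_arg w)] with α hα _ hcon
    linarith [hα.2]
  have ea2 : ∀ᶠ α in 𝓝[>] (-Real.pi), α ∈ Set.Ioo (-Real.pi) (min y 0) :=
    Ioo_mem_nhdsGT (lt_min y2.1 (by linarith))
  obtain ⟨α, a1, a2⟩ := (ea1.and ea2).exists
  have hα1 : -Real.pi < α := a2.1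
  have hα2 : α < y := a2.2.trans_le (min_le_left _ _)
  have hα3 : α < 0 := a2.2.trans_le (min_le_right _ _)
  have hy1 : -Real.pi < y := y2.1
  have hy2 : y < x := y2.2
  have argα : (e α).arg = α := arg_e' hα1 (by linarith)
  have argy : (e y).arg = y := arg_e' hy1 (by linarith)
  have nα : ∀ w ∈ A, w ≠ e α := by
    rintro w hw rfl
    exact a1 _ hw (e_ne α) (by rw [argα])
  have ny : ∀ w ∈ A, w ≠ e y := by
    rintro w hw rfl
    exact y1 _ hw (by rw [argy]; exact ⟨le_rfl, hy2⟩)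
  have zV : zb (pol V) x = Z V α y := zb_sector V hx2 hα1 hy2
    (fun w hw h0 => a1 w (hAV w hw) h0) (fun w hw _ => y1 w (hAV w hw))
  have zW : zb (pol W) x = Z W α y := zb_sector W hx2 hα1 hy2
    (fun w hw h0 => a1 w (hAW w hw) h0) (fun w hw _ => y1 w (hAW w hw))
  have nVα : nul (H V α) = 0 := nul_zero hM hV fun h => nα _ (hAV _ h) rfl
  have nVy : nul (H V y) = 0 := nul_zero hM hV fun h => ny _ (hAV _ h) rfl
  have nWα : nul (H W α) = 0 := nul_zero hM hW fun h => nα _ (hAW _ h) rfl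
  have nWy : nul (H W y) = 0 := nul_zero hM hW fun h => ny _ (hAW _ h) rfl
  rw [zV, zW]
  have rn : ∀ (U : Matrix (Fin n) (Fin n) ℝ) (θ : ℝ), nul (H U (-θ)) = nul (H U θ) :=
    fun U θ => (hR n U θ).2.1
  by_cases hx0 : 0 < x
  · have hy0 := y3 hx0
    have s3 := h3 n V hV (-α) y (by linarith) hy0 (by linarith) (by rw [rn]; exact nVα) nVy
    have s1 := h1 n W hW (-α) y (by linarith) hy0 (by linarith) (by rw [rn]; exact nWα) nWy
    rw [neg_neg] at s3 s1
    have v1 := (hVW (-α)).1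
    have v2 := (hVW y).1
    omega
  · have hy0 : y < 0 := by linarith
    have rs : ∀ (U : Matrix (Fin n) (Fin n) ℝ) (θ : ℝ), nul (H U θ) = 0 →
        nul (H U (θ + 2 * Real.pi)) = 0 := by
      intro U θ hθ
      have := (hR n U (-θ)).2.2.1
      rw [rn, hθ] at this
      have e1 : θ + 2 * Real.pi = 2 * Real.pi - -θ := by ring
      rw [e1]
      exact this
    have s2V := (h2 n V hV (α + 2 * Real.pi) (y + 2 * Real.pi) (by linarith) (by linarith)
      (by linarith) (rs V α nVα) (rs V y nVy)).2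
    have s2W := (h2 n W hW (α + 2 * Real.pi) (y + 2 * Real.pi) (by linarith) (by linarith)
      (by linarith) (rs W α nWα) (rs W y nWy)).1
    rw [Z_shift] at s2V s2W
    have v1 := (hVW (y + 2 * Real.pi)).1
    have v2 := (hVW (α + 2 * Real.pi)).2
    omega

theorem main (h1 : S_SW1) (h2 : S_SW2) (h3 : S_SW3) (hT : S_TOT) (hR : S_REFL) (hM : S_MULT) :
    S_CMP := by
  intro n m κ V W hV hW hVW kV kW x
  exact ⟨half h1 h2 h3 hT hR hM m κ V W hV hW hVW kV kW x,
    half h1 h2 h3 hT hR hM m κ W V hW hV (fun θ => (hVW θ).symm) kW kV x⟩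

end Pool.Agent.H47.BL.CMP
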