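import Pool.Agent.H47.BL.T.ONE

/-! BL-DISC (helper63) -/

set_option autoImplicit false

namespace Pool.Agent.H47.BL.DISC

open Matrix Polynomial Filter Topology REFL ONE

/-- rank factorization -/
theorem factor {n : ℕ} (M : Matrix (Fin n) (Fin n) ℝ) :
    ∃ (P : Matrix (Fin n) (Fin M.rank) ℝ) (Q : Matrix (Fin M.rank) (Fin n) ℝ), M = P * Q := by
  classical
  let b : Module.Basis (Fin M.rank) ℝ (LinearMap.range M.mulVecLin) :=
    Module.finBasisOfFinrankEq ℝ _ rfl
  refine ⟨Matrix.of fun i k => (b k : Fin n → ℝ) i,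
    Matrix.of fun k j => b.repr ⟨M.mulVecLin (Pi.single j 1), LinearMap.mem_range_self _ _⟩ k, ?_⟩
  ext i j
  rw [Matrix.mul_apply]
  simp only [Matrix.of_apply]
  have h1 := congrArg (fun v : LinearMap.range M.mulVecLin => (v : Fin n → ℝ) i)
    (b.sum_repr ⟨M.mulVecLin (Pi.single j 1), LinearMap.mem_range_self _ _⟩)
  simp only [Submodule.coe_sum, Submodule.coe_smul, Finset.sum_apply, Pi.smul_apply,
    smul_eq_mul] at h1
  have h2 : M.mulVecLin (Pi.single j 1) i = M i j := by
    rw [Matrix.mulVecLin_apply, Matrix.mulVec_single_one]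
    rfl
  rw [h2] at h1
  rw [← h1]
  exact Finset.sum_congr rfl fun k _ => mul_comm _ _

theorem rank_diff {n : ℕ} (V W : Matrix (Fin n) (Fin n) ℝ) (θ : ℝ) :
    (H V θ - H W θ).rank ≤ 2 * (V - W).rank := by
  obtain ⟨P, Q, hPQ⟩ := factor (V - W)
  have e1 : H V θ - H W θ = Matrix.fromCols (P.map Complex.ofReal) (Qᵀ.map Complex.ofReal) *
      Matrix.fromRows (e (θ / 2) • Q.map Complex.ofReal) (e (-(θ / 2)) • Pᵀ.map Complex.ofReal) := by
    rw [Matrix.fromCols_mul_fromRows]
    have h1 : cx V - cx W = P.map Complex.ofReal * Q.map Complex.ofReal := by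
      ext i j
      have h2 := congrFun (congrFun hPQ i) j
      rw [Matrix.mul_apply] at h2
      rw [Matrix.mul_apply]
      simp only [Matrix.sub_apply, Matrix.map_apply, cx] at h2 ⊢
      rw [← Complex.ofReal_sub, h2]
      push_cast
      rfl
    have h3 : cx Vᵀ - cx Wᵀ = Qᵀ.map Complex.ofReal * Pᵀ.map Complex.ofReal := by
      rw [cx_transpose, cx_transpose, ← transpose_sub, h1, transpose_mul]
      rfl
    rw [Matrix.mul_smul, Matrix.mul_smul, ← h1, ← h3]
    unfold H
    rw [smul_sub, smul_sub]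
    abel
  rw [e1]
  refine (Matrix.rank_mul_le_left _ _).trans ((Matrix.rank_le_card_width _).trans ?_)
  rw [Fintype.card_sum, Fintype.card_fin]
  omega

theorem main : S_NEGRK → S_NEGBD → S_CMP → S_DISC := by
  intro hRK hBD hCMP n r κ V W hV hW hr hF x
  have hrank : ∀ θ, (H V θ - H W θ).rank ≤ 2 * r := fun θ =>
    (rank_diff V W θ).trans (Nat.mul_le_mul_left 2 hr)
  have hrank' : ∀ θ, (H W θ - H V θ).rank ≤ 2 * r := fun θ => by
    refine (rank_diff W V θ).trans (Nat.mul_le_mul_left 2 ?_)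
    have : (W - V).rank = (V - W).rank := by
      have h1 : (W - V) = (-1 : Matrix (Fin n) (Fin n) ℝ) * (V - W) := by
        rw [neg_one_mul, neg_sub]
      have h2 : (V - W) = (-1 : Matrix (Fin n) (Fin n) ℝ) * (W - V) := by
        rw [neg_one_mul, neg_sub]
      apply le_antisymm
      · rw [h1]
        exact Matrix.rank_mul_le_right _ _
      · rw [h2]
        exact Matrix.rank_mul_le_right _ _
    rw [this]
    exact hr
  have h0 : neg (H V 0) ≤ κ := by
    rw [H_zero]
    refine hBD n κ (V + Vᵀ) ?_ hF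
    unfold Matrix.IsSymm
    rw [transpose_add, transpose_transpose, add_comm]
  have h0' : neg (H W 0) ≤ κ + 2 * r := by
    have := hRK n (2 * r) (H W 0) (H V 0) (hrank' 0)
    omega
  obtain ⟨h1, h2⟩ := hCMP n (2 * r) (κ + 2 * r) V W hV hW
    (fun θ => ⟨hRK n (2 * r) _ _ (hrank θ), hRK n (2 * r) _ _ (hrank' θ)⟩) (by omega) h0' x
  have h3 : (zb (pol V) x : ℝ) ≤ zb (pol W) x + (2 * (2 * r) + 2 * (κ + 2 * r)) := by
    exact_mod_cast h1
  have h4 : (zb (pol W) x : ℝ) ≤ zb (pol V) x + (2 * (2 * r) + 2 * (κ + 2 * r)) := by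
    exact_mod_cast h2
  have h5 : (0 : ℝ) ≤ κ := Nat.cast_nonneg _
  rw [abs_le]
  constructor <;> linarith

end Pool.Agent.H47.BL.DISC
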