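import Pool.Agent.H47.BL.Stm

/-!
BL-LOC: the change of the signature is bounded by the number of zeros.
-/

set_option autoImplicit false

namespace Pool.Agent.H47.BL.LOC

open Matrix Polynomial Filter Topology Pool.Agent.H47.BL Set

/-- A function that is locally nondecreasing at each point is nondecreasing. -/
theorem le_of_local (G : ℝ → ℕ) (a b : ℝ) (hab : a < b)
    (hl : ∀ x, a < x → x ≤ b → ∀ᶠ y in 𝓝 x, y < x → G y ≤ G x)
    (hr : ∀ x, a ≤ x → x < b → ∀ᶠ y in 𝓝 x, x < y → G x ≤ G y) : G a ≤ G b := by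
  by_contra hno
  obtain ⟨E, hE⟩ : ∃ E : Set ℝ, E = {x | x ∈ Icc a b ∧ G a ≤ G x} := ⟨_, rfl⟩
  have haE : a ∈ E := by rw [hE]; exact ⟨⟨le_rfl, hab.le⟩, le_rfl⟩
  have hbdd : BddAbove E := ⟨b, fun x hx => by rw [hE] at hx; exact hx.1.2⟩
  obtain ⟨c, hc⟩ : ∃ c, c = sSup E := ⟨_, rfl⟩
  have hac : a ≤ c := by rw [hc]; exact le_csSup hbdd haE
  have hcb : c ≤ b := by
    rw [hc]; exact csSup_le ⟨a, haE⟩ fun x hx => by rw [hE] at hx; exact hx.1.2
  have hcE : c ∈ E := by
    by_contra hcE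
    have hac' : a < c := lt_of_le_of_ne hac fun h => hcE (h ▸ haE)
    obtain ⟨ε, hε, h1⟩ := Metric.eventually_nhds_iff.1 (hl c hac' hcb)
    obtain ⟨x, hx, hxc⟩ := exists_lt_of_lt_csSup ⟨a, haE⟩ (show c - ε < sSup E by rw [← hc]; linarith)
    have hxc' : x < c := by
      refine lt_of_le_of_ne (by rw [hc]; exact le_csSup hbdd hx) fun h => hcE (h ▸ hx)
    have h2 := h1 (y := x) (by rw [Real.dist_eq, abs_lt]; constructor <;> linarith) hxc'
    apply hcE
    rw [hE] at hx ⊢
    exact ⟨⟨hac, hcb⟩, hx.2.trans h2⟩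
  have hcb' : c < b := by
    refine lt_of_le_of_ne hcb fun h => hno ?_
    rw [hE] at hcE
    rw [← h]; exact hcE.2
  obtain ⟨ε, hε, h1⟩ := Metric.eventually_nhds_iff.1 (hr c hac hcb')
  obtain ⟨y, hy1, hy2⟩ : ∃ y, c < y ∧ y < min b (c + ε) :=
    exists_between (lt_min hcb' (by linarith))
  have h2 := h1 (y := y) (by
    rw [Real.dist_eq, abs_lt]
    have := lt_of_lt_of_le hy2 (min_le_right b (c + ε))
    constructor <;> linarith) hy1
  have h3 : y ∈ E := by
    rw [hE] at hcE ⊢
    exact ⟨⟨by linarith, (lt_of_lt_of_le hy2 (min_le_left _ _)).le⟩, hcE.2.trans h2⟩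
  have h4 : y ≤ c := by rw [hc]; exact le_csSup hbdd h3
  linarith

/-- The abstract jump lemma. -/
theorem jump (n : ℕ) (p q d : ℝ → ℕ) (a b : ℝ) (hab : a < b) (hsum : ∀ x, p x + q x + d x = n)
    (hp : ∀ x, ∀ᶠ y in 𝓝 x, p x ≤ p y) (hq : ∀ x, ∀ᶠ y in 𝓝 x, q x ≤ q y)
    (T : Finset ℝ) (hT : ∀ x, a < x → x < b → d x ≠ 0 → x ∈ T) (ha : d a = 0) (hb : d b = 0) :
    p a ≤ p b + ∑ x ∈ T.filter (fun x => a < x ∧ x < b), d x := by
  have key := le_of_local (fun y => p y + d y + ∑ x ∈ T.filter (fun x => a < x ∧ x < y), d x)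
    a b hab ?_ ?_
  · have h1 : T.filter (fun x => a < x ∧ x < a) = ∅ := by
      apply Finset.filter_false_of_mem
      intro x _ h
      linarith [h.1, h.2]
    rw [h1, Finset.sum_empty, ha, hb] at key
    exact key
  · intro x _ _
    filter_upwards [hq x] with y hy hyx
    have h1 := hsum x
    have h2 := hsum y
    have h3 : ∑ z ∈ T.filter (fun z => a < z ∧ z < y), d z ≤
        ∑ z ∈ T.filter (fun z => a < z ∧ z < x), d z := by
      apply Finset.sum_le_sum_of_subset
      intro z hz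
      rw [Finset.mem_filter] at hz ⊢
      exact ⟨hz.1, hz.2.1, hz.2.2.trans hyx⟩
    omega
  · intro x hax hxb
    filter_upwards [hp x] with y hy hxy
    have h3 : d x + ∑ z ∈ T.filter (fun z => a < z ∧ z < x), d z ≤
        ∑ z ∈ T.filter (fun z => a < z ∧ z < y), d z := by
      by_cases hdx : d x = 0
      · rw [hdx, zero_add]
        apply Finset.sum_le_sum_of_subset
        intro z hz
        rw [Finset.mem_filter] at hz ⊢
        exact ⟨hz.1, hz.2.1, hz.2.2.trans hxy⟩
      · have hax' : a < x := lt_of_le_of_ne hax fun h => hdx (h ▸ ha)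
        have hx : x ∉ T.filter (fun z => a < z ∧ z < x) := by
          rw [Finset.mem_filter]
          intro h
          exact lt_irrefl _ h.2.2
        rw [← Finset.sum_insert hx]
        apply Finset.sum_le_sum_of_subset
        intro z hz
        rw [Finset.mem_insert, Finset.mem_filter] at hz
        rw [Finset.mem_filter]
        rcases hz with rfl | hz
        · exact ⟨hT z hax' hxb hdx, hax', hxy⟩
        · exact ⟨hz.1, hz.2.1, hz.2.2.trans hxy⟩
    omega

theorem e_norm (θ : ℝ) : ‖e θ‖ = 1 := Complex.norm_exp_ofReal_mul_I θ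

theorem e_ne (θ : ℝ) : e θ ≠ 0 := Complex.exp_ne_zero _

theorem e_inj (α β : ℝ) (hβ : β ≤ α + 2 * Real.pi) : Set.InjOn e (Ioo α β) := by
  intro x hx y hy hxy
  unfold e at hxy
  rw [Complex.exp_eq_exp_iff_exists_int] at hxy
  obtain ⟨k, hk⟩ := hxy
  have h1 : x = y + k * (2 * Real.pi) := by
    have h2 : (x : ℂ) * Complex.I = ((y + k * (2 * Real.pi) : ℝ) : ℂ) * Complex.I := by
      rw [hk]; push_cast; ring
    have h3 := mul_right_cancel₀ Complex.I_ne_zero h2
    exact_mod_cast h3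
  have hπ := Real.pi_pos
  have h4 : k = 0 := by
    have h5 : (k : ℝ) * (2 * Real.pi) < 1 * (2 * Real.pi) := by
      rw [one_mul]
      linarith [hx.1, hx.2, hy.1, hy.2]
    have h6 : (-1 : ℝ) * (2 * Real.pi) < k * (2 * Real.pi) := by
      rw [neg_one_mul]
      linarith [hx.1, hx.2, hy.1, hy.2]
    have h7 : (k : ℝ) < 1 := lt_of_mul_lt_mul_right h5 (by positivity)
    have h8 : (-1 : ℝ) < k := lt_of_mul_lt_mul_right h6 (by positivity)
    have h9 : k < 1 := by exact_mod_cast h7
    have h10 : -1 < k := by exact_mod_cast h8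
    omega
  rw [h4] at h1
  simpa using h1

theorem e_cont : Continuous e := by
  unfold e
  fun_prop

theorem H_cont {n : ℕ} (V : Matrix (Fin n) (Fin n) ℝ) : Continuous (H V) := by
  unfold H
  have h1 : Continuous fun θ : ℝ => e (θ / 2) := e_cont.comp (continuous_id.div_const 2)
  have h2 : Continuous fun θ : ℝ => e (-(θ / 2)) := e_cont.comp (continuous_id.div_const 2).neg
  exact (h1.smul continuous_const).add (h2.smul continuous_const)

theorem H_herm {n : ℕ} (V : Matrix (Fin n) (Fin n) ℝ) (θ : ℝ) : (H V θ).IsHermitian := by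
  have hs : ∀ x : ℝ, star (e x) = e (-x) := by
    intro x
    unfold e
    rw [Complex.star_def, ← Complex.exp_conj]
    simp
  have hc : ∀ W : Matrix (Fin n) (Fin n) ℝ, (cx W)ᴴ = cx Wᵀ := by
    intro W
    ext i j
    simp [cx, Matrix.conjTranspose_apply]
  unfold Matrix.IsHermitian H
  rw [Matrix.conjTranspose_add, Matrix.conjTranspose_smul, Matrix.conjTranspose_smul, hs, hs, hc,
    hc, Matrix.transpose_transpose, neg_neg, add_comm]

open Classical in
/-- The sum of the multiplicities in a sector. -/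
theorem sum_mult (f : ℂ[X]) (α β : ℝ) (hβ : β ≤ α + 2 * Real.pi) (T : Finset ℝ) :
    ∑ x ∈ T.filter (fun x => α < x ∧ x < β), f.rootMultiplicity (e x) ≤
      (f.roots.filter (sector α β)).card := by
  obtain ⟨m, hm⟩ : ∃ m, m = f.roots.filter (sector α β) := ⟨_, rfl⟩
  have h1 : ∑ x ∈ T.filter (fun x => α < x ∧ x < β), f.rootMultiplicity (e x) =
      ∑ x ∈ T.filter (fun x => α < x ∧ x < β), m.count (e x) := by
    refine Finset.sum_congr rfl fun x hx => ?_
    rw [Finset.mem_filter] at hx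
    rw [hm, Multiset.count_filter_of_pos, count_roots]
    refine ⟨e_ne x, x, hx.2.1, hx.2.2, ?_⟩
    rw [e_norm]; simp
  have h2 : ∑ x ∈ T.filter (fun x => α < x ∧ x < β), m.count (e x) =
      ∑ w ∈ (T.filter (fun x => α < x ∧ x < β)).image e, m.count w := by
    rw [Finset.sum_image]
    intro x hx y hy hxy
    rw [Finset.mem_coe, Finset.mem_filter] at hx hy
    exact e_inj α β hβ hx.2 hy.2 hxy
  rw [← hm, h1, h2, ← Multiset.sum_count_eq_card
    (s := (T.filter (fun x => α < x ∧ x < β)).image e ∪ m.toFinset)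
    (fun a ha => Finset.mem_union_right _ (Multiset.mem_toFinset.2 ha))]
  exact Finset.sum_le_sum_of_subset Finset.subset_union_left

theorem main : S_NEGADD → S_NEGSC → S_MULT → S_LOC := by
  intro hadd hsc hmult n V hV α β hαβ hβ hα0 hβ0
  classical
  -- the exceptional angles
  have hfin : {x | x ∈ Ioo α β ∧ nul (H V x) ≠ 0}.Finite := by
    have h1 : {x | x ∈ Ioo α β ∧ nul (H V x) ≠ 0} ⊆
        Ioo α β ∩ e ⁻¹' (((pol V).roots.toFinset : Finset ℂ) : Set ℂ) := by
      rintro x ⟨hx, hx0⟩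
      refine ⟨hx, ?_⟩
      rw [Set.mem_preimage, Finset.mem_coe, Multiset.mem_toFinset, mem_roots hV]
      have h2 := hmult n V x hV
      exact (rootMultiplicity_pos hV).1 (by omega)
    refine Set.Finite.subset ?_ h1
    exact Set.Finite.of_finite_image
      (((pol V).roots.toFinset.finite_toSet).subset (by
        rintro _ ⟨x, hx, rfl⟩
        exact hx.2)) ((e_inj α β hβ).mono inter_subset_left)
  have hT : ∀ x, α < x → x < β → nul (H V x) ≠ 0 → x ∈ hfin.toFinset := by
    intro x h1 h2 h3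
    rw [Set.Finite.mem_toFinset]
    exact ⟨⟨h1, h2⟩, h3⟩
  have hsum : ∀ x, neg (H V x) + neg (-H V x) + nul (H V x) = n := fun x =>
    hadd n _ (H_herm V x)
  have hp : ∀ x, ∀ᶠ y in 𝓝 x, neg (H V x) ≤ neg (H V y) := fun x =>
    hsc n (H V) x (H_cont V).continuousAt
  have hq : ∀ x, ∀ᶠ y in 𝓝 x, neg (-H V x) ≤ neg (-H V y) := fun x =>
    hsc n (fun y => -H V y) x (H_cont V).neg.continuousAt
  have h1 := jump n (fun x => neg (H V x)) (fun x => neg (-H V x)) (fun x => nul (H V x)) α β hαβ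
    hsum hp hq hfin.toFinset hT hα0 hβ0
  have h2 := jump n (fun x => neg (-H V x)) (fun x => neg (H V x)) (fun x => nul (H V x)) α β hαβ
    (fun x => by have := hsum x; omega) hq hp hfin.toFinset hT hα0 hβ0
  have h3 : ∑ x ∈ hfin.toFinset.filter (fun x => α < x ∧ x < β), nul (H V x) ≤ Z V α β := by
    unfold Z
    exact (Finset.sum_le_sum fun x _ => hmult n V x hV).trans
      (sum_mult (pol V) α β hβ hfin.toFinset)
  have h4 := hsum α
  have h5 := hsum β
  constructor <;> omega

end Pool.Agent.H47.BL.LOC
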