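import Pool.Agent.H47.BL.Stm

/-!
BL-MULT: the dimension of the kernel of `H V θ` is at most the multiplicity of the zero `e θ`.
-/

set_option autoImplicit false

namespace Pool.Agent.H47.BL.MULT

open Matrix Polynomial Filter Topology Pool.Agent.H47.BL

/-- Divisibility of a determinant of polynomials: columns of `M * Y` divisible by powers. -/
theorem det_dvd {n : ℕ} (t : ℂ) (M : Matrix (Fin n) (Fin n) ℂ[X]) {ι : Type} [Fintype ι]
    (hι : Fintype.card ι = n) (y : ι → Fin n → ℂ[X])
    (hy : LinearIndependent ℂ fun j : ι => fun i : Fin n => (y j i).eval t) (a : ι → ℕ)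
    (h : ∀ j i, (X - C t) ^ a j ∣ (M *ᵥ y j) i) : (X - C t) ^ (∑ j, a j) ∣ M.det := by
  classical
  obtain ⟨σ⟩ : Nonempty (Fin n ≃ ι) := ⟨Fintype.equivOfCardEq (by rw [Fintype.card_fin, hι])⟩
  obtain ⟨Y, hY⟩ : ∃ Y : Matrix (Fin n) (Fin n) ℂ[X], ∀ i j, Y i j = y (σ j) i :=
    ⟨Matrix.of fun i j => y (σ j) i, fun _ _ => rfl⟩
  have hMY : ∀ i j, (M * Y) i j = (M *ᵥ y (σ j)) i := by
    intro i j
    rw [Matrix.mul_apply]
    simp only [hY, Matrix.mulVec, dotProduct]
  have h1 : ∀ i j, ∃ q, (M * Y) i j = (X - C t) ^ a (σ j) * q := by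
    intro i j
    rw [hMY]
    exact h (σ j) i
  choose Q hQ using h1
  have h2 : M * Y = Matrix.of fun i j => (X - C t) ^ a (σ j) * (Matrix.of Q) i j := by
    ext1 i j
    rw [hQ]
    rfl
  have h3 : M.det * Y.det = (X - C t) ^ (∑ j, a j) * (Matrix.of Q).det := by
    rw [← Matrix.det_mul, h2, Matrix.det_mul_row (fun j => (X - C t) ^ a (σ j)) (Matrix.of Q),
      Finset.prod_pow_eq_pow_sum, Equiv.sum_comp σ a]
  have h4 : Y.det.eval t ≠ 0 := by
    have h5 : Y.det.eval t = (Y.map (eval t)).det := by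
      have := RingHom.map_det (evalRingHom t) Y
      simpa using this
    rw [h5]
    have h6 : LinearIndependent ℂ (Y.map (eval t)).col := by
      have h7 := hy.comp σ σ.injective
      convert h7 using 2
      ext i
      simp [Matrix.col, Matrix.map, hY]
    rw [Matrix.linearIndependent_cols_iff_isUnit, Matrix.isUnit_iff_isUnit_det] at h6
    exact h6.ne_zero
  have h5 : IsCoprime ((X - C t) ^ (∑ j, a j)) Y.det := by
    apply IsCoprime.pow_left
    have h6 : Irreducible (X - C t) := irreducible_X_sub_C t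
    rw [h6.coprime_iff_not_dvd, dvd_iff_isRoot]
    exact h4
  exact h5.dvd_of_dvd_mul_right ⟨_, h3⟩

/-- the polynomial matrix -/
noncomputable def MM {n : ℕ} (V : Matrix (Fin n) (Fin n) ℝ) : Matrix (Fin n) (Fin n) ℂ[X] :=
  Matrix.of fun i j => C (V i j : ℂ) * X + C (V j i : ℂ)

/-- the polynomial matrix applied to a constant vector -/
theorem MM_const {n : ℕ} (V : Matrix (Fin n) (Fin n) ℝ) (t : ℂ) (y : Fin n → ℂ) (i : Fin n) :
    (MM V *ᵥ fun j => C (y j)) i = (X - C t) * C ((cx V *ᵥ y) i) +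
      C ((t • (cx V *ᵥ y) + cx Vᵀ *ᵥ y) i) := by
  simp only [MM, Matrix.mulVec, dotProduct, Matrix.of_apply, cx, Matrix.map_apply, Pi.add_apply,
    Pi.smul_apply, smul_eq_mul, Matrix.transpose_apply, map_sum, map_mul, map_add, Finset.mul_sum]
  rw [← Finset.sum_add_distrib, ← Finset.sum_add_distrib]
  refine Finset.sum_congr rfl fun j _ => ?_
  ring

/-- families adapted to a subspace -/
theorem adapted {n : ℕ} (K : Submodule ℂ (Fin n → ℂ)) :
    ∃ (m : ℕ) (y : Fin (Module.finrank ℂ K) ⊕ Fin m → Fin n → ℂ),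
      Module.finrank ℂ K + m = n ∧ LinearIndependent ℂ y ∧ ∀ j, y (Sum.inl j) ∈ K := by
  obtain ⟨K', hK⟩ := Submodule.exists_isCompl K
  refine ⟨Module.finrank ℂ K', Sum.elim (fun j => ((Module.finBasis ℂ K j : K) : Fin n → ℂ))
    (fun j => ((Module.finBasis ℂ K' j : K') : Fin n → ℂ)), ?_, ?_, ?_⟩
  · have h1 := Submodule.finrank_add_eq_of_isCompl hK
    rw [h1, Module.finrank_fin_fun]
  · have s1 : ∀ L : Submodule ℂ (Fin n → ℂ),
        Submodule.span ℂ (Set.range fun j => ((Module.finBasis ℂ L j : L) : Fin n → ℂ)) ≤ L := by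
      intro L
      rw [Submodule.span_le]
      rintro _ ⟨j, rfl⟩
      exact (Module.finBasis ℂ L j).2
    have l1 : ∀ L : Submodule ℂ (Fin n → ℂ),
        LinearIndependent ℂ fun j => ((Module.finBasis ℂ L j : L) : Fin n → ℂ) := by
      intro L
      exact (Module.finBasis ℂ L).linearIndependent.map' L.subtype L.ker_subtype
    exact (l1 K).sum_type (l1 K') (hK.disjoint.mono (s1 K) (s1 K'))
  · intro j
    exact (Module.finBasis ℂ K j).2

theorem main : S_MULT := by
  intro n V θ hV
  rw [le_rootMultiplicity_iff hV]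
  obtain ⟨m, y, hm, hy, hyK⟩ := adapted (LinearMap.ker (H V θ).mulVecLin)
  have hpol : pol V = (MM V).det := rfl
  rw [hpol]
  -- the kernel
  have hk : ∀ x ∈ LinearMap.ker (H V θ).mulVecLin, e θ • (cx V *ᵥ x) + cx Vᵀ *ᵥ x = 0 := by
    intro x hx
    rw [LinearMap.mem_ker, Matrix.mulVecLin_apply] at hx
    unfold H at hx
    rw [Matrix.add_mulVec, Matrix.smul_mulVec, Matrix.smul_mulVec] at hx
    have h1 : e (θ / 2) * e (θ / 2) = e θ := by
      unfold e
      rw [← Complex.exp_add]
      congr 1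
      push_cast
      ring
    have h2 : e (θ / 2) * e (-(θ / 2)) = 1 := by
      unfold e
      rw [← Complex.exp_add]
      rw [← Complex.exp_zero]
      congr 1
      push_cast
      ring
    have h3 := congrArg (fun v => e (θ / 2) • v) hx
    simp only [smul_add, smul_smul, h1, h2, one_smul, smul_zero] at h3
    exact h3
  have h1 := det_dvd (e θ) (MM V) (ι := Fin (Module.finrank ℂ (LinearMap.ker (H V θ).mulVecLin)) ⊕ Fin m)
    (by rw [Fintype.card_sum, Fintype.card_fin, Fintype.card_fin, hm])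
    (fun j i => C (y j i)) (by simpa using hy) (Sum.elim (fun _ => 1) (fun _ => 0)) (by
      rintro (j | j) i
      · rw [MM_const V (e θ), hk _ (hyK j)]
        simp
      · simp)
  rw [Fintype.sum_sum_type] at h1
  simpa [nul] using h1

end Pool.Agent.H47.BL.MULT
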