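import Pool.Agent.H47.BL.Stm

set_option autoImplicit false

/-! BL-NEGADD (helper29): Sylvester's law -/

namespace Pool.Agent.H47.BL.NEGADD

open Matrix

variable {n : ℕ}

/-- the set in the definition of `neg` -/
theorem bdd (A : Matrix (Fin n) (Fin n) ℂ) : BddAbove {k : ℕ | ∃ W : Submodule ℂ (Fin n → ℂ),
    Module.finrank ℂ W = k ∧ ∀ x ∈ W, x ≠ 0 → form A x < 0} := by
  refine ⟨n, ?_⟩
  rintro k ⟨W, rfl, -⟩
  have := Submodule.finrank_le W
  rwa [Module.finrank_fin_fun] at this

/-- a diagonalised form -/
theorem neg_diag (A U : Matrix (Fin n) (Fin n) ℂ) (U' : Matrix (Fin n) (Fin n) ℂ) (d : Fin n → ℝ)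
    (h : ∀ x, form A x = ∑ i, d i * ‖(U *ᵥ x) i‖ ^ 2) (hU : U * U' = 1) :
    neg A = (Finset.univ.filter fun i => d i < 0).card := by
  classical
  have hU2 : U' * U = 1 := mul_eq_one_comm.1 hU
  unfold neg
  apply le_antisymm
  · refine csSup_le' ?_
    rintro k ⟨W, rfl, hW⟩
    -- restriction to the negative coordinates
    let f : W →ₗ[ℂ] ({i : Fin n // d i < 0} → ℂ) :=
      { toFun := fun x i => (U *ᵥ (x : Fin n → ℂ)) i
        map_add' := fun x y => by
          funext i
          simp [Matrix.mulVec_add]
        map_smul' := fun c x => by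
          funext i
          simp [Matrix.mulVec_smul] }
    have hf : Function.Injective f := by
      rw [injective_iff_map_eq_zero]
      intro x hx
      by_contra hne
      have h1 : (x : Fin n → ℂ) ≠ 0 := fun h => hne (Subtype.ext h)
      have h2 := hW x x.2 h1
      rw [h] at h2
      have h3 : 0 ≤ ∑ i, d i * ‖(U *ᵥ (x : Fin n → ℂ)) i‖ ^ 2 := by
        refine Finset.sum_nonneg fun i _ => ?_
        by_cases hd : d i < 0
        · have h4 : (U *ᵥ (x : Fin n → ℂ)) i = 0 := congrFun hx ⟨i, hd⟩
          rw [h4, norm_zero]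
          simp
        · exact mul_nonneg (not_lt.1 hd) (sq_nonneg _)
      linarith
    have h5 := LinearMap.finrank_le_finrank_of_injective hf
    rw [Module.finrank_fintype_fun_eq_card, Fintype.card_subtype] at h5
    exact h5
  · refine le_csSup (bdd A) ?_
    -- the span of the negative eigenvectors
    let g : ({i : Fin n // d i < 0} → ℂ) →ₗ[ℂ] (Fin n → ℂ) :=
      { toFun := fun y => U' *ᵥ (fun i => if hi : d i < 0 then y ⟨i, hi⟩ else 0)
        map_add' := fun x y => by
          rw [← Matrix.mulVec_add]
          congr 1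
          funext i
          by_cases hi : d i < 0 <;> simp [hi]
        map_smul' := fun c x => by
          rw [RingHom.id_apply, ← Matrix.mulVec_smul]
          congr 1
          funext i
          by_cases hi : d i < 0 <;> simp [hi] }
    have hUg : ∀ y, U *ᵥ g y = fun i => if hi : d i < 0 then y ⟨i, hi⟩ else 0 := by
      intro y
      show U *ᵥ (U' *ᵥ _) = _
      rw [Matrix.mulVec_mulVec, hU, Matrix.one_mulVec]
    have hg : Function.Injective g := by
      rw [injective_iff_map_eq_zero]
      intro y hy
      have h1 := hUg y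
      rw [hy, Matrix.mulVec_zero] at h1
      funext ⟨i, hi⟩
      have h2 := congrFun h1 i
      simp only [Pi.zero_apply, dif_pos hi] at h2
      exact h2.symm
    refine ⟨LinearMap.range g, ?_, ?_⟩
    · rw [LinearMap.finrank_range_of_inj hg, Module.finrank_fintype_fun_eq_card,
        Fintype.card_subtype]
    · rintro _ ⟨y, rfl⟩ hne
      have hy : y ≠ 0 := by
        rintro rfl
        exact hne (map_zero g)
      obtain ⟨⟨j, hj⟩, hyj⟩ := Function.ne_iff.1 hy
      rw [h, hUg]
      refine Finset.sum_neg' (fun i _ => ?_) ⟨j, Finset.mem_univ _, ?_⟩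
      · by_cases hi : d i < 0
        · exact mul_nonpos_of_nonpos_of_nonneg hi.le (sq_nonneg _)
        · simp [hi]
      · show d j * ‖(if hi : d j < 0 then y ⟨j, hi⟩ else 0)‖ ^ 2 < 0
        rw [dif_pos hj]
        have : 0 < ‖y ⟨j, hj⟩‖ ^ 2 := by
          have := norm_pos_iff.2 hyj
          positivity
        exact mul_neg_of_neg_of_pos hj this

theorem form_spec (A : Matrix (Fin n) (Fin n) ℂ) (hA : A.IsHermitian) (x : Fin n → ℂ) :
    form A x = ∑ i, hA.eigenvalues i *
      ‖((star (hA.eigenvectorUnitary : Matrix (Fin n) (Fin n) ℂ)) *ᵥ x) i‖ ^ 2 := by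
  set U : Matrix (Fin n) (Fin n) ℂ := (hA.eigenvectorUnitary : Matrix (Fin n) (Fin n) ℂ) with hU
  have h1 : A = U * diagonal (fun i => ((hA.eigenvalues i : ℝ) : ℂ)) * star U := by
    have := hA.spectral_theorem
    rw [Unitary.conjStarAlgAut_apply] at this
    exact this
  have h2 : star x ⬝ᵥ A *ᵥ x = ∑ i, ((hA.eigenvalues i : ℝ) : ℂ) * ((star ((star U *ᵥ x) i)) *
      (star U *ᵥ x) i) := by
    conv_lhs => rw [h1]
    rw [← Matrix.mulVec_mulVec, ← Matrix.mulVec_mulVec, Matrix.dotProduct_mulVec]
    have h3 : star x ᵥ* U = star (star U *ᵥ x) := by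
      rw [Matrix.star_mulVec, Matrix.star_eq_conjTranspose, Matrix.conjTranspose_conjTranspose]
    rw [h3]
    unfold dotProduct
    refine Finset.sum_congr rfl fun i _ => ?_
    rw [Matrix.mulVec_diagonal, Pi.star_apply]
    ring
  unfold form
  rw [h2, Complex.re_sum]
  refine Finset.sum_congr rfl fun i _ => ?_
  rw [Complex.star_def, ← Complex.normSq_eq_conj_mul_self, Complex.normSq_eq_norm_sq,
    ← Complex.ofReal_mul, Complex.ofReal_re]

theorem main : S_NEGADD := by
  classical
  intro n A hA
  set U : Matrix (Fin n) (Fin n) ℂ := (hA.eigenvectorUnitary : Matrix (Fin n) (Fin n) ℂ) with hU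
  have hUU : star U * U = 1 := Unitary.coe_star_mul_self _
  have h1 := neg_diag A (star U) U hA.eigenvalues (form_spec A hA) hUU
  have h2 := neg_diag (-A) (star U) U (fun i => -hA.eigenvalues i) (fun x => by
    have h3 : form (-A) x = -form A x := by
      unfold form
      rw [Matrix.neg_mulVec, dotProduct_neg, Complex.neg_re]
    rw [h3, form_spec A hA, ← Finset.sum_neg_distrib]
    refine Finset.sum_congr rfl fun i _ => ?_
    ring) hUU
  have h3 : nul A = (Finset.univ.filter fun i => hA.eigenvalues i = 0).card := by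
    have e1 := LinearMap.finrank_range_add_finrank_ker A.mulVecLin
    have e2 : Module.finrank ℂ (LinearMap.range A.mulVecLin) = A.rank := rfl
    rw [e2, hA.rank_eq_card_non_zero_eigs, Module.finrank_fin_fun, Fintype.card_subtype] at e1
    have e3 := Finset.card_filter_add_card_filter_not (s := (Finset.univ : Finset (Fin n)))
      (fun i => hA.eigenvalues i = 0)
    rw [Finset.card_univ, Fintype.card_fin] at e3
    unfold nul
    simp only [ne_eq] at e1
    omega
  rw [h1, h2, h3]
  have e4 : (Finset.univ.filter fun i => -hA.eigenvalues i < 0) =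
      Finset.univ.filter fun i => 0 < hA.eigenvalues i := by
    ext i
    simp
  rw [e4]
  have e5 : ∀ i, (if hA.eigenvalues i < 0 then 1 else 0) + (if 0 < hA.eigenvalues i then 1 else 0) +
      (if hA.eigenvalues i = 0 then 1 else 0) = 1 := by
    intro i
    rcases lt_trichotomy (hA.eigenvalues i) 0 with h | h | h
    · rw [if_pos h, if_neg (by linarith), if_neg h.ne]
    · rw [if_neg (by linarith), if_neg (by linarith), if_pos h]
    · rw [if_neg (by linarith), if_pos h, if_neg h.ne']
  rw [Finset.card_filter, Finset.card_filter, Finset.card_filter, ← Finset.sum_add_distrib,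
    ← Finset.sum_add_distrib, Finset.sum_congr rfl fun i _ => e5 i]
  simp

end Pool.Agent.H47.BL.NEGADD
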