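import Pool.Agent.H47.BL.T.Aux91

set_option autoImplicit false

namespace Pool.Agent.H47.BL.NEGBD

open Matrix Pool.Agent.H47.BL Pool.Agent.H47.BL.Aux91

/-- real part -/
def re {n : ℕ} (x : Fin n → ℂ) : Fin n → ℝ := fun i => (x i).re

/-- imaginary part -/
def im {n : ℕ} (x : Fin n → ℂ) : Fin n → ℝ := fun i => (x i).im

theorem mulVec_re {m n : ℕ} (U : Matrix (Fin m) (Fin n) ℝ) (x : Fin n → ℂ) (i : Fin m) :
    ((U.map Complex.ofReal *ᵥ x) i).re = (U *ᵥ re x) i := by
  simp [Matrix.mulVec, dotProduct, re]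

theorem mulVec_im {m n : ℕ} (U : Matrix (Fin m) (Fin n) ℝ) (x : Fin n → ℂ) (i : Fin m) :
    ((U.map Complex.ofReal *ᵥ x) i).im = (U *ᵥ im x) i := by
  simp [Matrix.mulVec, dotProduct, im]

theorem form_cx {n : ℕ} (S : Matrix (Fin n) (Fin n) ℝ) (x : Fin n → ℂ) :
    form (cx S) x = re x ⬝ᵥ S *ᵥ re x + im x ⬝ᵥ S *ᵥ im x := by
  unfold form cx
  simp only [dotProduct, Complex.re_sum, ← Finset.sum_add_distrib]
  refine Finset.sum_congr rfl fun i _ => ?_
  rw [Complex.mul_re]
  rw [mulVec_re, mulVec_im]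
  simp [re, im]

theorem main : S_NEGBD := by
  rintro n κ S _ ⟨U, hU⟩
  apply neg_le_iff
  intro W hW
  set Uc : Matrix (Fin κ) (Fin n) ℂ := U.map Complex.ofReal with hUc
  set K : Submodule ℂ (Fin n → ℂ) := LinearMap.ker Uc.mulVecLin with hK
  have hKd : n ≤ κ + Module.finrank ℂ K := by
    have h1 := finrank_ker Uc
    rw [← hK] at h1
    have h2 : Uc.rank ≤ κ := by
      simpa using Uc.rank_le_card_height
    omega
  have hdis : Disjoint W K := by
    rw [Submodule.disjoint_def]
    intro x hx hxK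
    by_contra hx0
    have h1 := hW x hx hx0
    rw [form_cx] at h1
    have hx2 : Uc *ᵥ x = 0 := by
      rwa [hK, LinearMap.mem_ker, Matrix.mulVecLin_apply] at hxK
    have hr : U *ᵥ re x = 0 := by
      funext i
      rw [← mulVec_re, ← hUc, hx2]
      simp
    have hi : U *ᵥ im x = 0 := by
      funext i
      rw [← mulVec_im, ← hUc, hx2]
      simp
    have h2 := hU (re x)
    have h3 := hU (im x)
    rw [hr] at h2
    rw [hi] at h3
    simp only [dotProduct_zero, add_zero] at h2 h3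
    linarith
  have h4 := Submodule.finrank_add_finrank_le_of_disjoint hdis
  have h5 : Module.finrank ℂ (Fin n → ℂ) = n := by simp
  omega

end Pool.Agent.H47.BL.NEGBD
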