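import Pool.Agent.H47.BL.T.Aux91

set_option autoImplicit false

namespace Pool.Agent.H47.BL.NEGRK

open Matrix Pool.Agent.H47.BL Pool.Agent.H47.BL.Aux91

theorem main : S_NEGRK := by
  intro n ρ A B hr
  apply neg_le_iff
  intro W hW
  set K : Submodule ℂ (Fin n → ℂ) := LinearMap.ker (A - B).mulVecLin with hK
  have hKd : n ≤ ρ + Module.finrank ℂ K := by
    have := finrank_ker (A - B)
    rw [← hK] at this
    omega
  have h1 : Module.finrank ℂ W + Module.finrank ℂ K
      = Module.finrank ℂ (W ⊔ K : Submodule ℂ (Fin n → ℂ))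
        + Module.finrank ℂ (W ⊓ K : Submodule ℂ (Fin n → ℂ)) :=
    (Submodule.finrank_sup_add_finrank_inf_eq W K).symm
  have h2 : Module.finrank ℂ (W ⊔ K : Submodule ℂ (Fin n → ℂ)) ≤ n := by
    calc _ ≤ Module.finrank ℂ (Fin n → ℂ) := Submodule.finrank_le _
      _ = n := by simp
  have h3 : Module.finrank ℂ (W ⊓ K : Submodule ℂ (Fin n → ℂ)) ≤ neg B := by
    apply dim_le_neg
    intro x hx hx0
    have hx1 := hW x hx.1 hx0
    have hx2 : (A - B) *ᵥ x = 0 := by
      have := hx.2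
      rwa [SetLike.mem_coe, hK, LinearMap.mem_ker, Matrix.mulVecLin_apply] at this
    have hx3 : A *ᵥ x = B *ᵥ x := by
      rw [Matrix.sub_mulVec] at hx2
      exact sub_eq_zero.1 hx2
    unfold form at hx1 ⊢
    rwa [hx3] at hx1
  omega

end Pool.Agent.H47.BL.NEGRK
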