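import Pool.Agent.H47.BL.T.Aux91

set_option autoImplicit false

namespace Pool.Agent.H47.BL.NEGSC

open Matrix Filter Topology Pool.Agent.H47.BL Pool.Agent.H47.BL.Aux91

theorem main : S_NEGSC := by
  intro n A θ₀ hA
  obtain ⟨W, hW, hneg⟩ := exists_neg (A θ₀)
  have key : ∀ᶠ θ in 𝓝 θ₀, ∀ x ∈ {x : Fin n → ℂ | x ∈ W ∧ ‖x‖ = 1}, form (A θ) x < 0 := by
    apply (compact_sphere W).eventually_forall_of_forall_eventually
    rintro x ⟨hx, hx1⟩
    have hx0 : x ≠ 0 := by
      rintro rfl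
      simp at hx1
    have h1 : ContinuousAt (fun p : ℝ × (Fin n → ℂ) => form (A p.1) p.2) (θ₀, x) := by
      have h2 : ContinuousAt (fun p : ℝ × (Fin n → ℂ) => (A p.1, p.2)) (θ₀, x) :=
        ContinuousAt.prodMk (ContinuousAt.comp (f := Prod.fst) (g := A) (x := (θ₀, x)) hA
          continuousAt_fst) continuousAt_snd
      exact ContinuousAt.comp (g := fun p : Matrix (Fin n) (Fin n) ℂ × (Fin n → ℂ) => form p.1 p.2)
        continuous_form.continuousAt h2
    have h3 : form (A θ₀) x < 0 := hneg x hx hx0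
    have h4 := h1.eventually (gt_mem_nhds h3)
    exact h4
  filter_upwards [key] with θ hθ
  rw [← hW]
  apply dim_le_neg
  exact pos_of_sphere fun x hx hx1 => hθ x ⟨hx, hx1⟩

end Pool.Agent.H47.BL.NEGSC
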