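import Pool.Agent.H47.BL.T.Aux91

set_option autoImplicit false

namespace Pool.Agent.H47.BL.NEGT

open Matrix Pool.Agent.H47.BL Pool.Agent.H47.BL.Aux91

theorem form_star {n : ℕ} (A : Matrix (Fin n) (Fin n) ℂ) (x : Fin n → ℂ) :
    form Aᵀ (star x) = form A x := by
  unfold form
  rw [star_star, Matrix.mulVec_transpose, dotProduct_comm, ← Matrix.dotProduct_mulVec]

/-- the conjugate of a subspace -/
def cj {n : ℕ} (W : Submodule ℂ (Fin n → ℂ)) : Submodule ℂ (Fin n → ℂ) where
  carrier := {x | star x ∈ W}
  add_mem' := by
    intro a b ha hb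
    change star (a + b) ∈ W
    rw [star_add]
    exact W.add_mem ha hb
  zero_mem' := by
    change star (0 : Fin n → ℂ) ∈ W
    rw [star_zero]
    exact W.zero_mem
  smul_mem' := by
    intro c a ha
    change star (c • a) ∈ W
    rw [star_smul]
    exact W.smul_mem _ ha

theorem finrank_le {n : ℕ} (W : Submodule ℂ (Fin n → ℂ)) :
    Module.finrank ℂ W ≤ Module.finrank ℂ (cj W) := by
  set b := Module.finBasis ℂ W with hb
  have hmem : ∀ i, star (b i : Fin n → ℂ) ∈ cj W := by
    intro i
    change star (star (b i : Fin n → ℂ)) ∈ W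
    rw [star_star]
    exact (b i).2
  have hli : LinearIndependent ℂ fun i => (⟨star (b i : Fin n → ℂ), hmem i⟩ : cj W) := by
    rw [Fintype.linearIndependent_iff]
    intro g hg i
    have h1 : ∑ i, g i • star (b i : Fin n → ℂ) = 0 := by
      have := congrArg (Submodule.subtype (cj W)) hg
      simpa using this
    have h2 : ∑ i, star (g i) • (b i : Fin n → ℂ) = 0 := by
      have := congrArg star h1
      rw [star_sum, star_zero] at this
      rw [← this]
      refine Finset.sum_congr rfl fun i _ => ?_
      rw [star_smul, star_star]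
    have h3 : ∑ i, star (g i) • b i = 0 := by
      apply Subtype.ext
      simpa using h2
    have h4 := Fintype.linearIndependent_iff.1 b.linearIndependent _ h3 i
    simpa using h4
  simpa using hli.fintype_card_le_finrank

theorem le {n : ℕ} (A : Matrix (Fin n) (Fin n) ℂ) : neg A ≤ neg Aᵀ := by
  apply neg_le_iff
  intro W hW
  refine (finrank_le W).trans (dim_le_neg ?_)
  intro x hx hx0
  have h1 := hW (star x) hx (by simpa using hx0)
  rwa [← form_star, star_star] at h1

theorem main : S_NEGT := by
  intro n A _
  constructor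
  · apply _root_.le_antisymm _ (le A)
    have := le Aᵀ
    rwa [Matrix.transpose_transpose] at this
  · have h1 := finrank_ker A
    have h2 := finrank_ker Aᵀ
    rw [Matrix.rank_transpose] at h2
    unfold nul
    omega

end Pool.Agent.H47.BL.NEGT
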