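import Pool.Agent.H47.BL.T.REFL

/-! BL-ONE (helper63) -/

set_option autoImplicit false

namespace Pool.Agent.H47.BL.ONE

open Matrix Polynomial Filter Topology REFL

theorem H_zero {n : ℕ} (V : Matrix (Fin n) (Fin n) ℝ) : H V 0 = cx (V + Vᵀ) := by
  unfold H
  rw [zero_div, neg_zero, e_zero, one_smul, one_smul]
  ext i j
  simp [cx]

theorem main : S_NEGADD → S_ONEA → S_ONEB1 → S_ONEB2 → S_ONE := by
  intro hN hA hB1 hB2 n V hV
  obtain ⟨P, hP1, hP2, hP3⟩ := hB1 n V
  have h1 := hA n V hV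
  have h0 := hN n (H V 0) (herm V 0)
  have hnul : nul (H V 0) = Module.finrank ℂ (Z0 V) := by
    unfold nul Z0
    rw [H_zero]
  filter_upwards [hB2 n V P hP1 hP3] with δ hδ
  have h2 := hN n (H V δ) (herm V δ)
  omega

end Pool.Agent.H47.BL.ONE
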