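import Pool.Agent.H47.BL.T.MULT

/-!
BL-ONEA: the multiplicity of the zero 1.
-/

set_option autoImplicit false

namespace Pool.Agent.H47.BL.ONEA

open Matrix Polynomial Filter Topology Pool.Agent.H47.BL Pool.Agent.H47.BL.MULT

/-- the basis vectors of a subspace of `ℂ^n` -/
theorem span_le {n : ℕ} (L : Submodule ℂ (Fin n → ℂ)) :
    Submodule.span ℂ (Set.range fun j => ((Module.finBasis ℂ L j : L) : Fin n → ℂ)) ≤ L := by
  rw [Submodule.span_le]
  rintro _ ⟨j, rfl⟩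
  exact (Module.finBasis ℂ L j).2

theorem lin_ind {n : ℕ} (L : Submodule ℂ (Fin n → ℂ)) :
    LinearIndependent ℂ fun j => ((Module.finBasis ℂ L j : L) : Fin n → ℂ) :=
  (Module.finBasis ℂ L).linearIndependent.map' L.subtype L.ker_subtype

/-- families adapted to a pair of subspaces -/
theorem adapted2 {n : ℕ} (K L : Submodule ℂ (Fin n → ℂ)) (hKL : K ≤ L) :
    ∃ (l m : ℕ) (y : (Fin (Module.finrank ℂ K) ⊕ Fin l) ⊕ Fin m → Fin n → ℂ),
      Module.finrank ℂ K + l + m = n ∧ Module.finrank ℂ K + l = Module.finrank ℂ L ∧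
      LinearIndependent ℂ y ∧ (∀ j, y (Sum.inl (Sum.inl j)) ∈ K) ∧
      ∀ j, y (Sum.inl (Sum.inr j)) ∈ L := by
  obtain ⟨K', hK⟩ := Submodule.exists_isCompl K
  obtain ⟨L', hL⟩ := Submodule.exists_isCompl L
  have hsup : K ⊔ (K' ⊓ L) = L := by
    rw [← sup_inf_assoc_of_le K' hKL, hK.sup_eq_top, top_inf_eq]
  have hdis : Disjoint K (K' ⊓ L) := hK.disjoint.mono_right inf_le_left
  have hdim : Module.finrank ℂ K + Module.finrank ℂ (K' ⊓ L : Submodule ℂ (Fin n → ℂ)) =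
      Module.finrank ℂ L := by
    have h1 := Submodule.finrank_sup_add_finrank_inf_eq K (K' ⊓ L)
    rw [hsup, hdis.eq_bot, finrank_bot, add_zero] at h1
    exact h1.symm
  refine ⟨Module.finrank ℂ (K' ⊓ L : Submodule ℂ (Fin n → ℂ)), Module.finrank ℂ L',
    Sum.elim (Sum.elim (fun j => ((Module.finBasis ℂ K j : K) : Fin n → ℂ))
    (fun j => ((Module.finBasis ℂ (K' ⊓ L : Submodule ℂ (Fin n → ℂ)) j :
      (K' ⊓ L : Submodule ℂ (Fin n → ℂ))) : Fin n → ℂ)))
    (fun j => ((Module.finBasis ℂ L' j : L') : Fin n → ℂ)), ?_, hdim, ?_, ?_, ?_⟩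
  · rw [hdim, Submodule.finrank_add_eq_of_isCompl hL, Module.finrank_fin_fun]
  · have h1 := (lin_ind K).sum_type (lin_ind (K' ⊓ L)) (hdis.mono (span_le K) (span_le _))
    refine h1.sum_type (lin_ind L') (hL.disjoint.mono ?_ (span_le L'))
    rw [Submodule.span_le]
    rintro _ ⟨j | j, rfl⟩
    · exact hKL (Module.finBasis ℂ K j).2
    · exact (Module.finBasis ℂ (K' ⊓ L : Submodule ℂ (Fin n → ℂ)) j).2.2
  · intro j
    exact (Module.finBasis ℂ K j).2
  · intro j
    exact (Module.finBasis ℂ (K' ⊓ L : Submodule ℂ (Fin n → ℂ)) j).2.2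

/-- the range of a real symmetric matrix -/
theorem range_symm {n : ℕ} (S : Matrix (Fin n) (Fin n) ℝ) (hS : Sᵀ = S) (v : Fin n → ℂ)
    (hv : ∀ z : Fin n → ℂ, cx S *ᵥ z = 0 → star z ⬝ᵥ v = 0) : ∃ x, cx S *ᵥ x = v := by
  by_contra hno
  have h1 : v ∉ LinearMap.range (cx S).mulVecLin := by
    rintro ⟨x, hx⟩
    exact hno ⟨x, by rw [← hx, Matrix.mulVecLin_apply]⟩
  obtain ⟨f, hf, hle⟩ := Submodule.exists_le_ker_of_notMem h1
  apply hf
  obtain ⟨w, hw⟩ : ∃ w : Fin n → ℂ, ∀ x, f x = w ⬝ᵥ x := by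
    refine ⟨fun i => f (Pi.single i 1), fun x => ?_⟩
    rw [LinearMap.pi_apply_eq_sum_univ f x]
    simp only [dotProduct, smul_eq_mul]
    refine Finset.sum_congr rfl fun i _ => ?_
    rw [mul_comm]
    congr 2
    ext j
    simp [Pi.single_apply, eq_comm]
  have hT : (cx S)ᵀ = cx S := by
    unfold cx
    rw [← Matrix.transpose_map, hS]
  have h2 : cx S *ᵥ w = 0 := by
    have h3 : ∀ x, (cx S *ᵥ w) ⬝ᵥ x = 0 := by
      intro x
      have h4 : f (cx S *ᵥ x) = 0 := by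
        have := hle (LinearMap.mem_range_self (cx S).mulVecLin x)
        rwa [LinearMap.mem_ker, Matrix.mulVecLin_apply] at this
      rw [hw, Matrix.dotProduct_mulVec, ← Matrix.mulVec_transpose, hT] at h4
      exact h4
    ext i
    have h5 := h3 (Pi.single i 1)
    rwa [dotProduct_single_one] at h5
  have h3 : cx S *ᵥ star w = 0 := by
    have h4 : star (cx S *ᵥ w) = cx S *ᵥ star w := by
      ext i
      simp [Matrix.mulVec, dotProduct, cx]
    rw [← h4, h2, star_zero]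
  rw [hw]
  have h4 := hv (star w) h3
  rwa [star_star] at h4

theorem main : S_ONEA := by
  intro n V hV
  rw [le_rootMultiplicity_iff hV]
  have hKL : K0 V ≤ Z0 V := fun y hy => hy.1
  obtain ⟨l, m, y, hm, hl, hy, hyK, hyL⟩ := adapted2 (K0 V) (Z0 V) hKL
  have hpol : pol V = (MM V).det := rfl
  have hcx : ∀ x : Fin n → ℂ, cx (V + Vᵀ) *ᵥ x = cx V *ᵥ x + cx Vᵀ *ᵥ x := by
    intro x
    rw [← Matrix.add_mulVec]
    congr 1
    ext i j
    simp [cx]
  have hcx' : ∀ x : Fin n → ℂ, cx (V - Vᵀ) *ᵥ x = cx V *ᵥ x - cx Vᵀ *ᵥ x := by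
    intro x
    rw [← Matrix.sub_mulVec]
    congr 1
    ext i j
    simp [cx]
  have hZ : ∀ x ∈ Z0 V, cx V *ᵥ x + cx Vᵀ *ᵥ x = 0 := by
    intro x hx
    have h1 : cx (V + Vᵀ) *ᵥ x = 0 := by
      have h2 : x ∈ LinearMap.ker (cx (V + Vᵀ)).mulVecLin := hx
      rwa [LinearMap.mem_ker, Matrix.mulVecLin_apply] at h2
    rw [← hcx, h1]
  have hS : (V + Vᵀ)ᵀ = V + Vᵀ := by
    rw [Matrix.transpose_add, Matrix.transpose_transpose, add_comm]
  -- the second order corrections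
  have hx : ∀ j : Fin (Module.finrank ℂ (K0 V)), ∃ x : Fin n → ℂ,
      cx V *ᵥ x + cx Vᵀ *ᵥ x = (2 : ℂ) • (cx V *ᵥ y (Sum.inl (Sum.inl j))) := by
    intro j
    obtain ⟨h1, h2⟩ := hyK j
    obtain ⟨x, hx⟩ := range_symm (V + Vᵀ) hS (cx (V - Vᵀ) *ᵥ y (Sum.inl (Sum.inl j)))
      (fun z hz => h2 z (by
        show z ∈ LinearMap.ker (cx (V + Vᵀ)).mulVecLin
        rw [LinearMap.mem_ker, Matrix.mulVecLin_apply, hz]))
    refine ⟨x, ?_⟩
    rw [← hcx, hx, hcx']
    have h3 := hZ _ h1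
    have h4 : cx Vᵀ *ᵥ y (Sum.inl (Sum.inl j)) = - (cx V *ᵥ y (Sum.inl (Sum.inl j))) :=
      (neg_eq_of_add_eq_zero_right h3).symm
    rw [h4, two_smul, sub_neg_eq_add]
  choose x hx using hx
  have h1 := det_dvd 1 (MM V)
    (ι := (Fin (Module.finrank ℂ (K0 V)) ⊕ Fin l) ⊕ Fin m)
    (by rw [Fintype.card_sum, Fintype.card_sum, Fintype.card_fin, Fintype.card_fin,
      Fintype.card_fin, hm])
    (Sum.elim (Sum.elim (fun j i => C (y (Sum.inl (Sum.inl j)) i) - (X - C 1) * C (x j i / 2))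
      (fun j i => C (y (Sum.inl (Sum.inr j)) i))) (fun j i => C (y (Sum.inr j) i)))
    (by
      convert hy using 1
      ext j i
      rcases j with (j | j) | j
      · simp
      · simp
      · simp)
    (Sum.elim (Sum.elim (fun _ => 2) (fun _ => 1)) (fun _ => 0)) (by
      rintro ((j | j) | j) i
      · have h2 : (fun i => C (y (Sum.inl (Sum.inl j)) i) - (X - C 1) * C (x j i / 2)) =
            (fun i => C (y (Sum.inl (Sum.inl j)) i)) - (X - C 1 : ℂ[X]) •
              (fun i => C (((1 / 2 : ℂ) • x j) i)) := by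
          ext1 i
          simp only [Pi.sub_apply, Pi.smul_apply, smul_eq_mul]
          congr 3
          ring
        show (X - C 1) ^ 2 ∣ (MM V *ᵥ (fun i => C (y (Sum.inl (Sum.inl j)) i) -
          (X - C 1) * C (x j i / 2))) i
        rw [h2, Matrix.mulVec_sub, Matrix.mulVec_smul, Pi.sub_apply, Pi.smul_apply,
          MM_const V 1, MM_const V 1, one_smul, one_smul, hZ _ (hyK j).1, Matrix.mulVec_smul,
          Matrix.mulVec_smul, ← smul_add, hx j, smul_smul]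
        refine ⟨- C (((1 / 2 : ℂ) • (cx V *ᵥ x j)) i), ?_⟩
        simp only [smul_eq_mul, Pi.zero_apply, map_zero, add_zero]
        norm_num
        ring
      · show (X - C 1) ^ 1 ∣ (MM V *ᵥ (fun i => C (y (Sum.inl (Sum.inr j)) i))) i
        rw [MM_const V 1, one_smul, hZ _ (hyL j)]
        simp
      · simp)
  rw [Fintype.sum_sum_type, Fintype.sum_sum_type] at h1
  simp only [Sum.elim_inl, Sum.elim_inr, Finset.sum_const, Finset.card_univ, Fintype.card_fin,
    smul_eq_mul, mul_one, mul_zero, add_zero] at h1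
  rw [hpol, ← hl]
  have h2 : Module.finrank ℂ (K0 V) + l + Module.finrank ℂ (K0 V) =
      Module.finrank ℂ (K0 V) * 2 + l := by ring
  rw [h2]
  exact h1

end Pool.Agent.H47.BL.ONEA
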