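import Pool.Agent.H47.BL.Stm

/-! BL-ONEB1 (helper19). -/

set_option autoImplicit false

namespace Pool.Agent.H47.BL.ONEB1

open Matrix Polynomial Filter Topology

theorem le_neg {n : ℕ} {A : Matrix (Fin n) (Fin n) ℂ} {W : Submodule ℂ (Fin n → ℂ)}
    (h : ∀ x ∈ W, x ≠ 0 → form A x < 0) : Module.finrank ℂ W ≤ neg A := by
  refine le_csSup ⟨n, ?_⟩ ⟨W, rfl, h⟩
  rintro k ⟨W, rfl, -⟩
  exact (Submodule.finrank_le W).trans (by simp)

theorem exists_neg {n : ℕ} (A : Matrix (Fin n) (Fin n) ℂ) :
    ∃ W : Submodule ℂ (Fin n → ℂ), Module.finrank ℂ W = neg A ∧ ∀ x ∈ W, x ≠ 0 → form A x < 0 := by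
  refine Nat.sSup_mem (s := {k : ℕ | ∃ W : Submodule ℂ (Fin n → ℂ), Module.finrank ℂ W = k ∧
    ∀ x ∈ W, x ≠ 0 → form A x < 0}) ⟨0, ⊥, by simp, ?_⟩ ⟨n, ?_⟩
  · intro x hx hx0
    exact absurd ((Submodule.mem_bot ℂ).1 hx) hx0
  · rintro k ⟨W, rfl, -⟩
    exact (Submodule.finrank_le W).trans (by simp)

theorem form_neg {n : ℕ} (A : Matrix (Fin n) (Fin n) ℂ) (x : Fin n → ℂ) : form (-A) x = -form A x := by
  unfold form
  rw [Matrix.neg_mulVec, dotProduct_neg, Complex.neg_re]

/-- the conjugate subspace -/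
def conjS {n : ℕ} (W : Submodule ℂ (Fin n → ℂ)) : Submodule ℂ (Fin n → ℂ) where
  carrier := {x | star x ∈ W}
  add_mem' := by
    intro a b ha hb
    change star a ∈ W at ha
    change star b ∈ W at hb
    change star (a + b) ∈ W
    rw [star_add]
    exact add_mem ha hb
  zero_mem' := by
    change star (0 : Fin n → ℂ) ∈ W
    rw [star_zero]
    exact zero_mem _
  smul_mem' := by
    intro c x hx
    change star x ∈ W at hx
    change star (c • x) ∈ W
    rw [star_smul]
    exact W.smul_mem _ hx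

theorem mem_conjS {n : ℕ} (W : Submodule ℂ (Fin n → ℂ)) (x : Fin n → ℂ) : x ∈ conjS W ↔ star x ∈ W :=
  Iff.rfl

theorem finrank_conjS {n : ℕ} (W : Submodule ℂ (Fin n → ℂ)) :
    Module.finrank ℂ (conjS W) = Module.finrank ℂ W := by
  let j : conjS W ≃+ W :=
    { toFun := fun x => ⟨star x.1, x.2⟩
      invFun := fun x => ⟨star x.1, by rw [mem_conjS, star_star]; exact x.2⟩
      left_inv := fun x => by simp
      right_inv := fun x => by simp
      map_add' := fun x y => by
        apply Subtype.ext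
        show star (x.1 + y.1) = star x.1 + star y.1
        exact star_add _ _ }
  refine congrArg Cardinal.toNat
    (rank_eq_of_equiv_equiv (fun z : ℂ => star z) j star_involutive.bijective (fun r m => ?_))
  apply Subtype.ext
  show star (r • m.1) = star r • star m.1
  exact star_smul _ _

/-- the form of `i J` changes its sign under conjugation -/
theorem form_star {n : ℕ} (J : Matrix (Fin n) (Fin n) ℝ) (x : Fin n → ℂ) :
    form (Complex.I • cx J) (star x) = -form (Complex.I • cx J) x := by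
  have h : star (star x) ⬝ᵥ (Complex.I • cx J) *ᵥ (star x) =
      -(starRingEnd ℂ) (star x ⬝ᵥ (Complex.I • cx J) *ᵥ x) := by
    rw [star_star]
    simp only [dotProduct, mulVec, cx, Matrix.smul_apply, Matrix.map_apply, smul_eq_mul, map_sum,
      map_mul, Complex.conj_I, Complex.conj_ofReal, Pi.star_apply, RCLike.star_def, Complex.conj_conj,
      Finset.mul_sum, ← Finset.sum_neg_distrib]
    refine Finset.sum_congr rfl fun i _ => Finset.sum_congr rfl fun j _ => ?_
    ring
  unfold form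
  rw [h, Complex.neg_re, Complex.conj_re]

theorem star_mem_Z0 {n : ℕ} {V : Matrix (Fin n) (Fin n) ℝ} {x : Fin n → ℂ} (hx : x ∈ Z0 V) :
    star x ∈ Z0 V := by
  unfold Z0 at hx ⊢
  rw [LinearMap.mem_ker, Matrix.mulVecLin_apply] at hx ⊢
  funext i
  have h := congrArg (starRingEnd ℂ) (congrFun hx i)
  simp only [dotProduct, mulVec, cx, Matrix.map_apply, map_sum, map_mul, Complex.conj_ofReal,
    Pi.zero_apply, map_zero] at h
  simp only [dotProduct, mulVec, cx, Matrix.map_apply, Pi.star_apply, RCLike.star_def, Pi.zero_apply]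
  exact h

/-- parametrisation of a subspace by a matrix -/
theorem exists_param {n : ℕ} (Z : Submodule ℂ (Fin n → ℂ)) :
    ∃ B : Matrix (Fin n) (Fin (Module.finrank ℂ Z)) ℂ, Function.Injective B.mulVecLin ∧
      LinearMap.range B.mulVecLin = Z := by
  let b := Module.finBasis ℂ Z
  let f : (Fin (Module.finrank ℂ Z) → ℂ) →ₗ[ℂ] (Fin n → ℂ) :=
    Z.subtype ∘ₗ (b.equivFun.symm : (Fin (Module.finrank ℂ Z) → ℂ) →ₗ[ℂ] Z)
  refine ⟨LinearMap.toMatrix' f, ?_, ?_⟩
  · have : (LinearMap.toMatrix' f).mulVecLin = f := by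
      rw [← Matrix.toLin'_apply', Matrix.toLin'_toMatrix']
    rw [this]
    exact (Submodule.subtype_injective Z).comp b.equivFun.symm.injective
  · have : (LinearMap.toMatrix' f).mulVecLin = f := by
      rw [← Matrix.toLin'_apply', Matrix.toLin'_toMatrix']
    rw [this, LinearMap.range_comp, LinearEquiv.range, Submodule.map_top, Submodule.range_subtype]

theorem form_conj {n d : ℕ} (A : Matrix (Fin n) (Fin n) ℂ) (B : Matrix (Fin n) (Fin d) ℂ)
    (y : Fin d → ℂ) : form (Bᴴ * A * B) y = form A (B *ᵥ y) := by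
  unfold form
  rw [Matrix.star_mulVec, ← Matrix.dotProduct_mulVec, Matrix.mulVec_mulVec, Matrix.mulVec_mulVec,
    Matrix.mul_assoc]

theorem flip {n : ℕ} {V J : Matrix (Fin n) (Fin n) ℝ} {B : Matrix (Fin n) (Fin (Module.finrank ℂ (Z0 V))) ℂ}
    (hB : Function.Injective B.mulVecLin) (hB2 : LinearMap.range B.mulVecLin = Z0 V)
    (W : Submodule ℂ (Fin (Module.finrank ℂ (Z0 V)) → ℂ)) :
    ∃ W' : Submodule ℂ (Fin (Module.finrank ℂ (Z0 V)) → ℂ), Module.finrank ℂ W' = Module.finrank ℂ W ∧
      ∀ y ∈ W', y ≠ 0 → ∃ y' ∈ W, y' ≠ 0 ∧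
        form (Bᴴ * (Complex.I • cx J) * B) y = -form (Bᴴ * (Complex.I • cx J) * B) y' := by
  let N : Submodule ℂ (Fin n → ℂ) := W.map B.mulVecLin
  have hN : N ≤ Z0 V := by
    rw [← hB2]
    exact LinearMap.map_le_range
  have hcN : conjS N ≤ LinearMap.range B.mulVecLin := by
    rw [hB2]
    intro x hx
    have := star_mem_Z0 (hN ((mem_conjS N x).1 hx))
    rwa [star_star] at this
  refine ⟨(conjS N).comap B.mulVecLin, ?_, ?_⟩
  · have h1 : ((conjS N).comap B.mulVecLin).map B.mulVecLin = conjS N := by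
      rw [Submodule.map_comap_eq, inf_eq_right.2 hcN]
    have h2 := (Submodule.equivMapOfInjective B.mulVecLin hB ((conjS N).comap B.mulVecLin)).finrank_eq
    rw [h2, h1, finrank_conjS]
    exact (Submodule.equivMapOfInjective B.mulVecLin hB W).finrank_eq.symm
  · intro y hy hy0
    rw [Submodule.mem_comap, mem_conjS] at hy
    obtain ⟨y', hy', h1⟩ := hy
    rw [Matrix.mulVecLin_apply, Matrix.mulVecLin_apply] at h1
    refine ⟨y', hy', ?_, ?_⟩
    · rintro rfl
      rw [Matrix.mulVec_zero] at h1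
      apply hy0
      apply hB
      rw [Matrix.mulVecLin_apply, map_zero]
      exact star_eq_zero.1 h1.symm
    · rw [form_conj, form_conj, h1, form_star, neg_neg]

theorem main (h : S_NEGADD) : S_ONEB1 := by
  intro n V
  obtain ⟨B, hB, hB2⟩ := exists_param (Z0 V)
  set J := V - Vᵀ with hJ
  set A : Matrix (Fin n) (Fin n) ℂ := Complex.I • cx J with hA
  set G := Bᴴ * A * B with hG
  have hAh : A.IsHermitian := by
    unfold Matrix.IsHermitian
    rw [hA]
    ext i j
    simp only [Matrix.conjTranspose_apply, Matrix.smul_apply, cx, Matrix.map_apply, smul_eq_mul, hJ,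
      Matrix.sub_apply, Matrix.transpose_apply, RCLike.star_def, map_mul, Complex.conj_I,
      Complex.conj_ofReal]
    push_cast
    ring
  have hGh : G.IsHermitian := by
    rw [hG]
    exact Matrix.isHermitian_conjTranspose_mul_mul B hAh
  have h1 := h _ G hGh
  have h2 : neg G = neg (-G) := by
    apply le_antisymm
    · obtain ⟨W, hW, hW2⟩ := exists_neg G
      obtain ⟨W', hW', hW2'⟩ := flip (J := J) hB hB2 W
      rw [← hW, ← hW']
      refine le_neg fun y hy hy0 => ?_
      obtain ⟨y', hy', hy0', h3⟩ := hW2' y hy hy0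
      rw [form_neg]
      have h4 := hW2 y' hy' hy0'
      have h5 : form G y = -form G y' := h3
      linarith
    · obtain ⟨W, hW, hW2⟩ := exists_neg (-G)
      obtain ⟨W', hW', hW2'⟩ := flip (J := J) hB hB2 W
      rw [← hW, ← hW']
      refine le_neg fun y hy hy0 => ?_
      obtain ⟨y', hy', hy0', h3⟩ := hW2' y hy hy0
      have h4 := hW2 y' hy' hy0'
      rw [form_neg] at h4
      have h5 : form G y = -form G y' := h3
      linarith
  have e0 : ∀ w y, star (B *ᵥ w) ⬝ᵥ (A *ᵥ (B *ᵥ y)) = star w ⬝ᵥ (G *ᵥ y) := by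
    intro w y
    rw [Matrix.star_mulVec, ← Matrix.dotProduct_mulVec, Matrix.mulVec_mulVec,
      Matrix.mulVec_mulVec, hG]
  have h3 : nul G = Module.finrank ℂ (K0 V) := by
    unfold nul
    have e1 : (LinearMap.ker G.mulVecLin).map B.mulVecLin = K0 V := by
      ext x
      rw [Submodule.mem_map]
      constructor
      · rintro ⟨y, hy, rfl⟩
        rw [LinearMap.mem_ker, Matrix.mulVecLin_apply] at hy
        refine ⟨hB2.le ⟨y, rfl⟩, fun z hz => ?_⟩
        obtain ⟨w, rfl⟩ := hB2.ge hz
        have e2 := e0 w y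
        rw [hy, dotProduct_zero, hA, Matrix.smul_mulVec, dotProduct_smul, smul_eq_zero] at e2
        exact e2.resolve_left Complex.I_ne_zero
      · rintro ⟨hx, hx2⟩
        obtain ⟨y, rfl⟩ := hB2.ge hx
        refine ⟨y, ?_, rfl⟩
        rw [LinearMap.mem_ker, Matrix.mulVecLin_apply]
        apply dotProduct_eq_zero
        intro w
        have e2 := e0 (star w) y
        have e3 := hx2 (B *ᵥ star w) (hB2.le ⟨star w, rfl⟩)
        rw [Matrix.mulVecLin_apply] at e3
        rw [hA, Matrix.smul_mulVec, dotProduct_smul, e3, smul_zero, star_star] at e2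
        rw [dotProduct_comm]
        exact e2.symm
    rw [← e1]
    exact (Submodule.equivMapOfInjective B.mulVecLin hB _).finrank_eq
  obtain ⟨W, hW, hW2⟩ := exists_neg (-G)
  refine ⟨W.map B.mulVecLin, ?_, ?_, ?_⟩
  · exact LinearMap.map_le_range.trans hB2.le
  · have e1 := (Submodule.equivMapOfInjective B.mulVecLin hB W).finrank_eq
    rw [← e1, hW, ← h3]
    omega
  · rintro x ⟨y, hy, rfl⟩ hx0
    have hy0 : y ≠ 0 := by
      rintro rfl
      exact hx0 (map_zero _)
    have h4 := hW2 y hy hy0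
    rw [form_neg, hG, form_conj] at h4
    rw [Matrix.mulVecLin_apply]
    linarith

end Pool.Agent.H47.BL.ONEB1
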