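import Pool.Agent.H47.BL.Stm

/-! BL-ONEB2 (helper19). -/

set_option autoImplicit false

namespace Pool.Agent.H47.BL.ONEB2

open Matrix Polynomial Filter Topology

theorem le_neg {n : ℕ} {A : Matrix (Fin n) (Fin n) ℂ} {W : Submodule ℂ (Fin n → ℂ)}
    (h : ∀ x ∈ W, x ≠ 0 → form A x < 0) : Module.finrank ℂ W ≤ neg A := by
  refine le_csSup ⟨n, ?_⟩ ⟨W, rfl, h⟩
  rintro k ⟨W, rfl, -⟩
  exact (Submodule.finrank_le W).trans (by simp)

theorem exists_neg {n : ℕ} (A : Matrix (Fin n) (Fin n) ℂ) :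
    ∃ W : Submodule ℂ (Fin n → ℂ), Module.finrank ℂ W = neg A ∧ ∀ x ∈ W, x ≠ 0 → form A x < 0 := by
  refine Nat.sSup_mem (s := {k : ℕ | ∃ W : Submodule ℂ (Fin n → ℂ), Module.finrank ℂ W = k ∧
    ∀ x ∈ W, x ≠ 0 → form A x < 0}) ⟨0, ⊥, by simp, ?_⟩ ⟨n, ?_⟩
  · intro x hx hx0
    exact absurd ((Submodule.mem_bot ℂ).1 hx) hx0
  · rintro k ⟨W, rfl, -⟩
    exact (Submodule.finrank_le W).trans (by simp)

theorem form_neg {n : ℕ} (A : Matrix (Fin n) (Fin n) ℂ) (x : Fin n → ℂ) : form (-A) x = -form A x := by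
  unfold form
  rw [Matrix.neg_mulVec, dotProduct_neg, Complex.neg_re]

theorem form_add {n : ℕ} (A B : Matrix (Fin n) (Fin n) ℂ) (x : Fin n → ℂ) :
    form (A + B) x = form A x + form B x := by
  unfold form
  rw [Matrix.add_mulVec, dotProduct_add, Complex.add_re]

theorem form_smul {n : ℕ} (r : ℝ) (A : Matrix (Fin n) (Fin n) ℂ) (x : Fin n → ℂ) :
    form ((r : ℂ) • A) x = r * form A x := by
  unfold form
  rw [Matrix.smul_mulVec, dotProduct_smul, smul_eq_mul, Complex.re_ofReal_mul]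

theorem form_smul_vec {n : ℕ} (r : ℝ) (A : Matrix (Fin n) (Fin n) ℂ) (x : Fin n → ℂ) :
    form A ((r : ℂ) • x) = r ^ 2 * form A x := by
  unfold form
  rw [Matrix.mulVec_smul, dotProduct_smul, star_smul, smul_dotProduct, smul_eq_mul, smul_eq_mul,
    RCLike.star_def, Complex.conj_ofReal, Complex.re_ofReal_mul, Complex.re_ofReal_mul]
  ring

theorem form_cont {n : ℕ} (A : Matrix (Fin n) (Fin n) ℂ) : Continuous (form A) := by
  unfold form
  refine Complex.continuous_re.comp ?_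
  simp only [dotProduct, mulVec]
  refine continuous_finset_sum _ fun i _ => Continuous.mul ?_ ?_
  · exact (continuous_star.comp (continuous_apply i))
  · exact continuous_finset_sum _ fun j _ => continuous_const.mul (continuous_apply j)

theorem H_eq {n : ℕ} (V : Matrix (Fin n) (Fin n) ℝ) (θ : ℝ) :
    H V θ = ((Real.cos (θ / 2) : ℝ) : ℂ) • cx (V + Vᵀ) +
      ((Real.sin (θ / 2) : ℝ) : ℂ) • (Complex.I • cx (V - Vᵀ)) := by
  ext i j
  simp only [H, e, cx, Matrix.add_apply, Matrix.smul_apply, Matrix.map_apply, Matrix.transpose_apply,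
    Matrix.sub_apply, smul_eq_mul, Complex.exp_mul_I]
  push_cast
  rw [Complex.cos_neg, Complex.sin_neg]
  ring

theorem star_mem_Z0 {n : ℕ} {V : Matrix (Fin n) (Fin n) ℝ} {x : Fin n → ℂ} (hx : x ∈ Z0 V) :
    cx (V + Vᵀ) *ᵥ (star x) = 0 := by
  unfold Z0 at hx
  rw [LinearMap.mem_ker, Matrix.mulVecLin_apply] at hx
  funext i
  have h := congrArg (starRingEnd ℂ) (congrFun hx i)
  simp only [dotProduct, mulVec, cx, Matrix.map_apply, map_sum, map_mul, Complex.conj_ofReal,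
    Pi.zero_apply, map_zero] at h
  simp only [dotProduct, mulVec, cx, Matrix.map_apply, Pi.star_apply, RCLike.star_def, Pi.zero_apply]
  exact h

theorem form_add_ker {n : ℕ} {V : Matrix (Fin n) (Fin n) ℝ} {x y : Fin n → ℂ} (hy : y ∈ Z0 V) :
    form (cx (V + Vᵀ)) (x + y) = form (cx (V + Vᵀ)) x := by
  have hT : (cx (V + Vᵀ))ᵀ = cx (V + Vᵀ) := by
    ext i j
    simp only [cx, Matrix.transpose_apply, Matrix.map_apply, Matrix.add_apply]
    rw [add_comm]
  have h1 : cx (V + Vᵀ) *ᵥ y = 0 := by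
    unfold Z0 at hy
    rwa [LinearMap.mem_ker, Matrix.mulVecLin_apply] at hy
  have h2 : star y ⬝ᵥ cx (V + Vᵀ) *ᵥ x = 0 := by
    rw [Matrix.dotProduct_mulVec, ← Matrix.mulVec_transpose, hT, star_mem_Z0 hy, zero_dotProduct]
  unfold form
  rw [Matrix.mulVec_add, h1, add_zero, star_add, add_dotProduct, h2, add_zero]

theorem main : S_ONEB2 := by
  intro n V P hP hpos
  set S := cx (V + Vᵀ) with hS
  set A := Complex.I • cx (V - Vᵀ) with hA
  obtain ⟨P₁, hP₁, hP₁n⟩ := exists_neg (-H V 0)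
  have hH0 : H V 0 = S := by
    rw [H_eq, zero_div, Real.cos_zero, Real.sin_zero, Complex.ofReal_one, Complex.ofReal_zero, one_smul,
      zero_smul, add_zero]
  have hs : ∀ x ∈ P₁, x ≠ 0 → 0 < form S x := by
    intro x hx hx0
    have := hP₁n x hx hx0
    rw [form_neg, hH0] at this
    linarith
  have hs0 : ∀ x : Fin n → ℂ, x ∈ Z0 V → form S x = 0 := by
    intro x hx
    have h1 := form_add_ker (x := 0) hx
    rw [zero_add] at h1
    rw [hS, h1]
    unfold form
    rw [Matrix.mulVec_zero, dotProduct_zero, Complex.zero_re]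
  have hinf : P₁ ⊓ P = ⊥ := by
    rw [Submodule.eq_bot_iff]
    rintro x ⟨hx1, hx2⟩
    by_contra hx0
    have h1 := hs x hx1 hx0
    rw [hs0 x (hP hx2)] at h1
    exact lt_irrefl _ h1
  have hsum : Module.finrank ℂ (P₁ ⊔ P : Submodule ℂ (Fin n → ℂ)) =
      neg (-H V 0) + Module.finrank ℂ P := by
    have := Submodule.finrank_sup_add_finrank_inf_eq P₁ P
    rw [hinf, finrank_bot, add_zero] at this
    rw [this, hP₁]
  -- on the sum `S ≥ 0`, and where it is zero `A > 0`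
  have hW : ∀ z ∈ P₁ ⊔ P, z ≠ 0 → 0 ≤ form S z ∧ (form S z ≤ 0 → 0 < form A z) := by
    intro z hz hz0
    obtain ⟨x, hx, y, hy, rfl⟩ := Submodule.mem_sup.1 hz
    have h1 : form S (x + y) = form S x := form_add_ker (hP hy)
    rw [h1]
    by_cases hx0 : x = 0
    · subst hx0
      have h2 : form S (0 : Fin n → ℂ) = 0 := by
        unfold form
        rw [Matrix.mulVec_zero, dotProduct_zero, Complex.zero_re]
      rw [h2, zero_add]
      rw [zero_add] at hz0
      exact ⟨le_rfl, fun _ => hpos y hy hz0⟩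
    · have h2 := hs x hx hx0
      exact ⟨h2.le, fun h => absurd h2 (not_lt.2 h)⟩
  -- compactness
  set K : Set (Fin n → ℂ) := {z | z ∈ P₁ ⊔ P} ∩ Metric.sphere 0 1 with hK
  have hKc : IsCompact K := by
    have h1 : IsClosed ((P₁ ⊔ P : Submodule ℂ (Fin n → ℂ)) : Set (Fin n → ℂ)) :=
      Submodule.closed_of_finiteDimensional _
    exact (isCompact_sphere (0 : Fin n → ℂ) 1).inter_left h1
  have hK0 : ∀ z ∈ K, z ≠ 0 := by
    rintro z ⟨-, hz⟩ rfl
    simp at hz
  obtain ⟨M, hM⟩ : ∃ M : ℝ, ∀ z ∈ K, |form A z| ≤ M :=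
    hKc.exists_bound_of_continuousOn (form_cont A).continuousOn
  obtain ⟨c, hc, hcK⟩ : ∃ c : ℝ, 0 < c ∧ ∀ z ∈ K, form A z ≤ 0 → c ≤ form S z := by
    have hK' : IsCompact (K ∩ {z | form A z ≤ 0}) :=
      hKc.inter_right (isClosed_le (form_cont A) continuous_const)
    rcases (K ∩ {z | form A z ≤ 0}).eq_empty_or_nonempty with h | h
    · refine ⟨1, one_pos, fun z hz hz2 => ?_⟩
      have : z ∈ K ∩ {z | form A z ≤ 0} := ⟨hz, hz2⟩
      rw [h] at this
      exact absurd this (Set.notMem_empty z)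
    · obtain ⟨z0, hz0, hmin⟩ := hK'.exists_isMinOn h (form_cont S).continuousOn
      refine ⟨form S z0, ?_, fun z hz hz2 => hmin ⟨hz, hz2⟩⟩
      obtain ⟨h1, h2⟩ := hW z0 hz0.1.1 (hK0 z0 hz0.1)
      by_contra hcon
      have h3 := h2 (not_lt.1 hcon)
      have h4 : form A z0 ≤ 0 := hz0.2
      linarith
  -- small `δ`
  have hev1 : ∀ᶠ δ in 𝓝[>] (0 : ℝ), 0 < c * Real.cos (δ / 2) - M * Real.sin (δ / 2) := by
    have hcont : ContinuousAt (fun δ : ℝ => c * Real.cos (δ / 2) - M * Real.sin (δ / 2)) 0 := by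
      fun_prop
    have h0 : 0 < c * Real.cos ((0 : ℝ) / 2) - M * Real.sin ((0 : ℝ) / 2) := by
      rw [zero_div, Real.cos_zero, Real.sin_zero]
      linarith
    exact (hcont.eventually_const_lt h0).filter_mono nhdsWithin_le_nhds
  have hev2 : ∀ᶠ δ in 𝓝[>] (0 : ℝ), δ < 1 :=
    (eventually_lt_nhds (show (0 : ℝ) < 1 by norm_num)).filter_mono nhdsWithin_le_nhds
  filter_upwards [hev1, hev2, self_mem_nhdsWithin] with δ h1 h2 h3
  have h3' : (0 : ℝ) < δ := h3
  rw [← hsum]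
  refine le_neg fun z hz hz0 => ?_
  have hsin : 0 < Real.sin (δ / 2) :=
    Real.sin_pos_of_pos_of_lt_pi (by linarith) (by linarith [Real.pi_gt_three])
  have hcos : 0 < Real.cos (δ / 2) :=
    Real.cos_pos_of_mem_Ioo ⟨by linarith [Real.pi_gt_three], by linarith [Real.pi_gt_three]⟩
  -- normalise
  have hnz : 0 < ‖z‖ := norm_pos_iff.2 hz0
  set w : Fin n → ℂ := ((‖z‖⁻¹ : ℝ) : ℂ) • z with hw
  have hwK : w ∈ K := by
    refine ⟨Submodule.smul_mem _ _ hz, ?_⟩
    rw [mem_sphere_zero_iff_norm, hw, norm_smul, Complex.norm_real, norm_inv, norm_norm,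
      inv_mul_cancel₀ hnz.ne']
  have hzw : z = ((‖z‖ : ℝ) : ℂ) • w := by
    rw [hw, smul_smul, ← Complex.ofReal_mul, mul_inv_cancel₀ hnz.ne', Complex.ofReal_one, one_smul]
  have hform : form (H V δ) w = Real.cos (δ / 2) * form S w + Real.sin (δ / 2) * form A w := by
    rw [H_eq, form_add, form_smul, form_smul]
  have hposw : 0 < form (H V δ) w := by
    rw [hform]
    obtain ⟨h4, h5⟩ := hW w hwK.1 (hK0 w hwK)
    rcases le_or_gt (form A w) 0 with h | h
    · have h6 := hcK w hwK h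
      have h7 := hM w hwK
      have h8 := neg_abs_le (form A w)
      have h9 : -M ≤ form A w := by linarith
      nlinarith
    · have : 0 ≤ Real.cos (δ / 2) * form S w := by positivity
      have : 0 < Real.sin (δ / 2) * form A w := by positivity
      linarith
  rw [form_neg, hzw, form_smul_vec]
  have : 0 < ‖z‖ ^ 2 * form (H V δ) w := by positivity
  linarith

end Pool.Agent.H47.BL.ONEB2
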