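import Pool.Agent.H47.BL.Stm

/-!
BL-PSD: the zeros of `det (X W + Wᵀ)` if `W + Wᵀ` is positive semidefinite.
-/

set_option autoImplicit false

namespace Pool.Agent.H47.BL.PSD

open Matrix Polynomial Filter Topology Pool.Agent.H47.BL

theorem re_form {n : ℕ} (S : Matrix (Fin n) (Fin n) ℝ) (x : Fin n → ℂ) :
    (star x ⬝ᵥ cx S *ᵥ x).re =
      (fun i => (x i).re) ⬝ᵥ S *ᵥ (fun i => (x i).re) +
      (fun i => (x i).im) ⬝ᵥ S *ᵥ (fun i => (x i).im) := by
  simp only [dotProduct, Matrix.mulVec, cx, Matrix.map_apply, Pi.star_apply, Finset.mul_sum,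
    Complex.re_sum]
  rw [← Finset.sum_add_distrib]
  refine Finset.sum_congr rfl fun i _ => ?_
  rw [← Finset.sum_add_distrib]
  refine Finset.sum_congr rfl fun j _ => ?_
  simp

theorem mulVec_re_im {n : ℕ} (S : Matrix (Fin n) (Fin n) ℝ) (x : Fin n → ℂ)
    (h1 : S *ᵥ (fun i => (x i).re) = 0) (h2 : S *ᵥ (fun i => (x i).im) = 0) :
    cx S *ᵥ x = 0 := by
  ext i
  have h3 := congrFun h1 i
  have h4 := congrFun h2 i
  simp only [dotProduct, Matrix.mulVec, Pi.zero_apply] at h3 h4
  apply Complex.ext
  · simp only [dotProduct, Matrix.mulVec, cx, Matrix.map_apply, Complex.re_sum, Pi.zero_apply,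
      Complex.zero_re, Complex.re_ofReal_mul]
    exact h3
  · simp only [dotProduct, Matrix.mulVec, cx, Matrix.map_apply, Complex.im_sum, Pi.zero_apply,
      Complex.zero_im, Complex.im_ofReal_mul]
    exact h4

theorem main : S_PSD := by
  intro n W hW hdet
  have hpol : pol W = ((X : ℂ[X]) • (cx W).map C + (cx Wᵀ).map C).det := by
    unfold pol
    congr 1
    ext1 i j
    simp only [cx, Matrix.of_apply, Matrix.add_apply, Matrix.smul_apply, Matrix.map_apply,
      Matrix.transpose_apply, smul_eq_mul]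
    rw [mul_comm]
  have hdc : (cx W).det = (W.det : ℂ) := by
    have := RingHom.map_det Complex.ofRealHom W
    rw [Complex.ofRealHom_eq_coe] at this
    rw [this]
    rfl
  have hcoeff : (pol W).coeff n = (W.det : ℂ) := by
    have h1 := coeff_det_X_add_C_card (cx W) (cx Wᵀ)
    rw [Fintype.card_fin, ← hpol, hdc] at h1
    exact h1
  have hdeg : (pol W).natDegree ≤ n := by
    have h1 := natDegree_det_X_add_C_le (cx W) (cx Wᵀ)
    rwa [Fintype.card_fin, ← hpol] at h1
  have hdetc : (W.det : ℂ) ≠ 0 := by exact_mod_cast hdet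
  have hne : pol W ≠ 0 := by
    intro h
    rw [h, coeff_zero] at hcoeff
    exact hdetc hcoeff.symm
  have hnd : (pol W).natDegree = n :=
    le_antisymm hdeg (le_natDegree_of_ne_zero (by rw [hcoeff]; exact hdetc))
  have hlead : (pol W).leadingCoeff = (W.det : ℂ) := by
    rw [leadingCoeff, hnd, hcoeff]
  have hherm : (W + Wᵀ).IsHermitian := by
    unfold Matrix.IsHermitian
    rw [Matrix.conjTranspose_add, Matrix.conjTranspose_eq_transpose_of_trivial,
      Matrix.conjTranspose_eq_transpose_of_trivial, Matrix.transpose_transpose, add_comm]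
  have hpsd : (W + Wᵀ).PosSemidef :=
    Matrix.PosSemidef.of_dotProduct_mulVec_nonneg hherm fun x => by
      rw [star_trivial]; exact hW x
  have hroots : ∀ w ∈ (pol W).roots, ‖w‖ = 1 := by
    intro w hw
    rw [mem_roots hne, IsRoot.def] at hw
    have h1 : (w • cx W + cx Wᵀ).det = 0 := by
      rw [← hw, hpol]
      have h2 := RingHom.map_det (evalRingHom w) ((X : ℂ[X]) • (cx W).map C + (cx Wᵀ).map C)
      rw [coe_evalRingHom] at h2
      rw [h2]
      congr 1
      ext i j
      simp
      ring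
    obtain ⟨x, hx0, hx⟩ := Matrix.exists_mulVec_eq_zero_iff.2 h1
    rw [Matrix.add_mulVec, Matrix.smul_mulVec] at hx
    obtain ⟨v, hv⟩ : ∃ v, v = star x ⬝ᵥ cx W *ᵥ x := ⟨_, rfl⟩
    have hv' : star x ⬝ᵥ cx Wᵀ *ᵥ x = star v := by
      have h3 : (cx W)ᴴ = cx Wᵀ := by
        ext i j
        simp [cx, Matrix.conjTranspose_apply]
      rw [hv, ← h3, ← Matrix.star_dotProduct_star, star_star, Matrix.star_mulVec,
        ← Matrix.dotProduct_mulVec, dotProduct_comm]
    have h2 : w * v + star v = 0 := by
      have h3 := congrArg (fun u => star x ⬝ᵥ u) hx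
      simp only [dotProduct_add, dotProduct_smul, dotProduct_zero, smul_eq_mul] at h3
      rw [← hv, hv'] at h3
      exact h3
    by_cases hv0 : v = 0
    · -- the form vanishes at x
      have h3 : (star x ⬝ᵥ cx (W + Wᵀ) *ᵥ x).re = 0 := by
        have h4 : cx (W + Wᵀ) = cx W + cx Wᵀ := by
          ext i j; simp [cx]
        rw [h4, Matrix.add_mulVec, dotProduct_add, ← hv, hv', hv0]
        simp
      rw [re_form] at h3
      have h4 := hW (fun i => (x i).re)
      have h5 := hW (fun i => (x i).im)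
      have h6 : (W + Wᵀ) *ᵥ (fun i => (x i).re) = 0 := by
        rw [← hpsd.dotProduct_mulVec_zero_iff, star_trivial]
        linarith
      have h7 : (W + Wᵀ) *ᵥ (fun i => (x i).im) = 0 := by
        rw [← hpsd.dotProduct_mulVec_zero_iff, star_trivial]
        linarith
      have h8 := mulVec_re_im (W + Wᵀ) x h6 h7
      have h9 : cx W *ᵥ x + cx Wᵀ *ᵥ x = 0 := by
        rw [← h8, ← Matrix.add_mulVec]
        congr 1
        ext i j; simp [cx]
      have h10 : (w - 1) • (cx W *ᵥ x) = 0 := by
        rw [sub_smul, one_smul, sub_eq_zero]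
        have h11 := hx.trans h9.symm
        exact add_right_cancel h11
      rcases smul_eq_zero.1 h10 with h11 | h11
      · rw [sub_eq_zero.1 h11, norm_one]
      · exfalso
        have h12 : (cx W).det = 0 := Matrix.exists_mulVec_eq_zero_iff.1 ⟨x, hx0, h11⟩
        rw [hdc] at h12
        exact hdetc h12
    · have h3 : w * v = - star v := eq_neg_of_add_eq_zero_left h2
      have h4 := congrArg norm h3
      rw [norm_mul, norm_neg, norm_star] at h4
      exact mul_right_cancel₀ (norm_ne_zero_iff.2 hv0) (h4.trans (one_mul _).symm)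
  refine ⟨hne, hroots, ?_⟩
  rw [mahlerMeasure_eq_leadingCoeff_mul_prod_roots, hlead]
  have h1 : (Multiset.map (fun a => max 1 ‖a‖) (pol W).roots) =
      Multiset.map (fun _ => (1 : ℝ)) (pol W).roots := by
    apply Multiset.map_congr rfl
    intro a ha
    rw [hroots a ha, max_self]
  rw [h1]
  simp

end Pool.Agent.H47.BL.PSD
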