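import Pool.Agent.H47.BL.Stm

/-! BL-REFL (helper63) -/

set_option autoImplicit false

namespace Pool.Agent.H47.BL.REFL

open Matrix Polynomial Filter Topology

theorem e_neg (θ : ℝ) : e (-θ) = (starRingEnd ℂ) (e θ) := by
  unfold e
  rw [← Complex.exp_conj, map_mul, Complex.conj_ofReal, Complex.conj_I]
  push_cast
  ring_nf

theorem e_add (θ η : ℝ) : e (θ + η) = e θ * e η := by
  unfold e
  rw [← Complex.exp_add]
  push_cast
  ring_nf

theorem e_pi : e Real.pi = -1 := by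
  unfold e
  exact Complex.exp_pi_mul_I

theorem e_neg_pi : e (-Real.pi) = -1 := by
  rw [e_neg, e_pi]
  simp

theorem e_zero : e 0 = 1 := by
  unfold e
  simp

theorem cx_transpose {n : ℕ} (V : Matrix (Fin n) (Fin n) ℝ) : cx Vᵀ = (cx V)ᵀ := rfl

theorem cx_conj {n : ℕ} (V : Matrix (Fin n) (Fin n) ℝ) : (cx V)ᴴ = (cx V)ᵀ := by
  ext i j
  simp [cx]

theorem herm {n : ℕ} (V : Matrix (Fin n) (Fin n) ℝ) (θ : ℝ) : (H V θ).IsHermitian := by
  unfold Matrix.IsHermitian H
  rw [conjTranspose_add, conjTranspose_smul, conjTranspose_smul, cx_transpose, cx_conj,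
    e_neg]
  have h1 : ((cx V)ᵀ)ᴴ = cx V := by
    rw [← cx_conj, conjTranspose_conjTranspose]
  rw [h1]
  simp only [Complex.star_def, Complex.conj_conj]
  rw [add_comm]

theorem H_neg {n : ℕ} (V : Matrix (Fin n) (Fin n) ℝ) (θ : ℝ) : H V (-θ) = (H V θ)ᵀ := by
  unfold H
  rw [transpose_add, transpose_smul, transpose_smul, cx_transpose, transpose_transpose, neg_div,
    neg_neg, add_comm]

theorem H_two_pi {n : ℕ} (V : Matrix (Fin n) (Fin n) ℝ) (θ : ℝ) :
    H V (2 * Real.pi - θ) = -(H V θ)ᵀ := by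
  unfold H
  rw [transpose_add, transpose_smul, transpose_smul, cx_transpose, transpose_transpose]
  have h1 : (2 * Real.pi - θ) / 2 = Real.pi + -(θ / 2) := by ring
  have h2 : -(Real.pi + -(θ / 2)) = -Real.pi + θ / 2 := by ring
  rw [h1, h2, e_add, e_add, e_pi, e_neg_pi]
  simp only [neg_one_mul, neg_smul]
  abel

theorem nul_neg {n : ℕ} (A : Matrix (Fin n) (Fin n) ℂ) : nul (-A) = nul A := by
  unfold nul
  have : LinearMap.ker (-A).mulVecLin = LinearMap.ker A.mulVecLin := by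
    ext x
    simp [LinearMap.mem_ker]
  rw [this]

theorem main : S_NEGADD → S_NEGT → S_REFL := by
  intro hA hT n V θ
  obtain ⟨h1, h2⟩ := hT n (H V θ) (herm V θ)
  have h3 := hA n (H V θ)ᵀ (herm V θ).transpose
  refine ⟨?_, ?_, ?_, ?_⟩
  · rw [H_neg, h1]
  · rw [H_neg, h2]
  · rw [H_two_pi, nul_neg, h2]
  · rw [H_two_pi]
    rw [h1, h2] at h3
    omega

end Pool.Agent.H47.BL.REFL
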