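import Pool.Agent.H47.BL.T.Sec

set_option autoImplicit false

/-! BL-SW1 (helper29) -/

namespace Pool.Agent.H47.BL.SW1

open Matrix Polynomial Filter Topology
open Pool.Agent.H47.BL.Sec

theorem main (hM : S_MULT) (hL : S_LOC) (hO : S_ONE) (hR : S_REFL) : S_SW1 := by
  classical
  intro n V hV a b ha hb hab na nb
  -- a small angle
  have e1 := hO n V hV
  have e2 : ∀ᶠ δ in 𝓝[>] (0 : ℝ), nul (H V δ) = 0 :=
    nhdsWithin_mono 0 (fun x (hx : 0 < x) => hx.ne') (ev_nul hM hV 0)
  have e3 : ∀ᶠ δ in 𝓝[>] (0 : ℝ), δ ∈ Set.Ioo 0 (min a b) := Ioo_mem_nhdsGT (lt_min ha hb)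
  obtain ⟨δ, d1, d2, d3⟩ := (e1.and (e2.and e3)).exists
  have hδ0 : 0 < δ := d3.1
  have hδa : δ < a := d3.2.trans_le (min_le_left _ _)
  have hδb : δ < b := d3.2.trans_le (min_le_right _ _)
  have hpi := Real.pi_pos
  have r1 := hR n V a
  have r2 := hR n V δ
  have l1 := (hL n V hV (-a) (-δ) (by linarith) (by linarith) (by rw [r1.2.1]; exact na)
    (by rw [r2.2.1]; exact d2)).1
  rw [r1.1, r2.1] at l1
  have l2 := (hL n V hV δ b hδb (by linarith) d2 nb).2
  -- counting
  have c1 : Z V (-a) (-δ) + Z V δ b + (pol V).rootMultiplicity 1 ≤ Z V (-a) b := by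
    have h1 : Z V (-a) (-δ) + ((pol V).roots.filter fun w => sector δ b w ∨ w = 1).card ≤
        Z V (-a) b := by
      refine card_two (pol V).roots (sector (-a) (-δ)) (fun w => sector δ b w ∨ w = 1)
        (sector (-a) b) (fun w h1 h2 => ?_) (fun w h => sector_mono le_rfl (by linarith) h)
        (fun w h => ?_)
      · rcases h2 with h2 | h2
        · exact sector_disj (by linarith) (by linarith) h1 h2
        · have h3 : sector (-δ) δ w := ⟨h1.1, 0, by linarith, hδ0, by
            rw [h2]; simp [e]⟩
          exact sector_disj le_rfl (by linarith) h1 h3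
      · rcases h with h | h
        · exact sector_mono (by linarith) le_rfl h
        · refine ⟨by rw [h]; exact one_ne_zero, 0, by linarith, hb, ?_⟩
          rw [h]; simp [e]
    have h2 : Z V δ b + ((pol V).roots.filter fun w => w = 1).card ≤
        ((pol V).roots.filter fun w => sector δ b w ∨ w = 1).card := by
      refine card_two (pol V).roots (sector δ b) (fun w => w = 1)
        (fun w => sector δ b w ∨ w = 1) (fun w h1 h2 => ?_) (fun w h => Or.inl h)
        (fun w h => Or.inr h)
      have h3 : sector (-δ) δ w := ⟨h1.1, 0, by linarith, hδ0, by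
        rw [h2]; simp [e]⟩
      exact sector_disj le_rfl (by linarith) h3 h1
    have h3 : ((pol V).roots.filter fun w => w = 1).card = (pol V).rootMultiplicity 1 := by
      rw [← Polynomial.count_roots, Multiset.count_eq_card_filter_eq]
      congr 1
      exact Multiset.filter_congr fun w _ => eq_comm
    omega
  omega

end Pool.Agent.H47.BL.SW1
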