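import Pool.Agent.H47.BL.T.Sec

set_option autoImplicit false

/-! BL-SW2 (helper29) -/

namespace Pool.Agent.H47.BL.SW2

open Matrix Polynomial Filter Topology
open Pool.Agent.H47.BL.Sec

theorem main (h1 : S_SW1) (hL : S_LOC) (hR : S_REFL) : S_SW2 := by
  intro n V hV α β hα hαβ hβ na nb
  have hpi := Real.pi_pos
  refine ⟨(hL n V hV α β hαβ (by linarith) na nb).2, ?_⟩
  have r := hR n V β
  have s := h1 n V hV (2 * Real.pi - β) α (by linarith) hα (by linarith) (by rw [r.2.2.1]; exact nb)
    na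
  have c := Z_add V (α := α) (β := β) (γ := β) (δ := α + 2 * Real.pi) le_rfl le_rfl
  have c2 : Z V (-(2 * Real.pi - β)) α = Z V β (α + 2 * Real.pi) := by
    rw [← Z_shift]
    congr 1
    ring
  have r4 := r.2.2.2
  rw [c2] at s
  omega

end Pool.Agent.H47.BL.SW2
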