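import Pool.Agent.H47.BL.T.Sec

set_option autoImplicit false

/-! BL-TOT (helper29) -/

namespace Pool.Agent.H47.BL.TOT

open Matrix Polynomial Filter Topology
open Pool.Agent.H47.BL.Sec

theorem main (h1 : S_SW1) (h2 : S_SW2) (hR : S_REFL) (hM : S_MULT) : S_TOT := by
  classical
  intro n V hV
  have hpi := Real.pi_pos
  constructor
  · have e2 : ∀ᶠ b in 𝓝[>] (0 : ℝ), nul (H V b) = 0 :=
      nhdsWithin_mono 0 (fun x (hx : 0 < x) => hx.ne') (ev_nul hM hV 0)
    have e3 : ∀ᶠ b in 𝓝[>] (0 : ℝ), b ∈ Set.Ioo 0 Real.pi := Ioo_mem_nhdsGT hpi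
    obtain ⟨b, nb, hb⟩ := (e2.and e3).exists
    have hb0 : 0 < b := hb.1
    have hb1 : b < Real.pi := hb.2
    have r := hR n V b
    have s2 := (h2 n V hV b (2 * Real.pi - b) hb0 (by linarith) (by linarith) nb
      (by rw [r.2.2.1]; exact nb)).1
    have s1 := h1 n V hV b b hb0 hb0 (by linarith) nb nb
    have r4 := r.2.2.2
    have c : Z V (-b) b + Z V b (2 * Real.pi - b) ≤ zb (pol V) 4 := by
      have h4 : ∀ w : ℂ, w.arg < 4 := fun w =>
        lt_of_le_of_lt (Complex.arg_le_pi w) Real.pi_lt_four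
      exact card_two (pol V).roots (sector (-b) b) (sector b (2 * Real.pi - b))
        (fun w => w ≠ 0 ∧ w.arg < 4)
        (fun w a1 a2 => sector_disj le_rfl (by linarith) a1 a2)
        (fun w a1 => ⟨a1.1, h4 w⟩) (fun w a1 => ⟨a1.1, h4 w⟩)
    omega
  · unfold zb
    exact (Multiset.card_le_card (Multiset.filter_le _ _)).trans (card_roots V)

end Pool.Agent.H47.BL.TOT
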