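import Pool.Agent.H47.BL.Stm

/-!
# Project BL: small lemmas on `neg` (used by NEGRK, NEGBD, NEGSC, NEGT, ONEB2)
-/

set_option autoImplicit false

namespace Pool.Agent.H47.BL.Aux91

open Matrix Polynomial Filter Topology Pool.Agent.H47.BL

theorem bdd {n : ℕ} (A : Matrix (Fin n) (Fin n) ℂ) :
    BddAbove {k : ℕ | ∃ W : Submodule ℂ (Fin n → ℂ), Module.finrank ℂ W = k ∧
      ∀ x ∈ W, x ≠ 0 → form A x < 0} := by
  refine ⟨n, ?_⟩
  rintro k ⟨W, rfl, -⟩
  calc Module.finrank ℂ W ≤ Module.finrank ℂ (Fin n → ℂ) := Submodule.finrank_le W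
    _ = n := by simp

theorem dim_le_neg {n : ℕ} {A : Matrix (Fin n) (Fin n) ℂ} {W : Submodule ℂ (Fin n → ℂ)}
    (h : ∀ x ∈ W, x ≠ 0 → form A x < 0) : Module.finrank ℂ W ≤ neg A :=
  le_csSup (bdd A) ⟨W, rfl, h⟩

theorem exists_neg {n : ℕ} (A : Matrix (Fin n) (Fin n) ℂ) :
    ∃ W : Submodule ℂ (Fin n → ℂ), Module.finrank ℂ W = neg A ∧
      ∀ x ∈ W, x ≠ 0 → form A x < 0 := by
  have hne : {k : ℕ | ∃ W : Submodule ℂ (Fin n → ℂ), Module.finrank ℂ W = k ∧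
      ∀ x ∈ W, x ≠ 0 → form A x < 0}.Nonempty := by
    refine ⟨0, ⊥, finrank_bot ℂ _, ?_⟩
    intro x hx hx0
    exact absurd ((Submodule.mem_bot ℂ).1 hx) hx0
  exact Nat.sSup_mem hne (bdd A)

theorem neg_le_iff {n : ℕ} {A : Matrix (Fin n) (Fin n) ℂ} {k : ℕ}
    (h : ∀ W : Submodule ℂ (Fin n → ℂ), (∀ x ∈ W, x ≠ 0 → form A x < 0) →
      Module.finrank ℂ W ≤ k) : neg A ≤ k := by
  obtain ⟨W, hW, hneg⟩ := exists_neg A
  rw [← hW]
  exact h W hneg

theorem form_smul {n : ℕ} (A : Matrix (Fin n) (Fin n) ℂ) (c : ℂ) (x : Fin n → ℂ) :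
    form A (c • x) = ‖c‖ ^ 2 * form A x := by
  unfold form
  rw [star_smul, Matrix.mulVec_smul, smul_dotProduct, dotProduct_smul, smul_eq_mul, smul_eq_mul,
    ← mul_assoc]
  have h : star c * c = ((‖c‖ ^ 2 : ℝ) : ℂ) := by
    rw [Complex.star_def, ← Complex.normSq_eq_conj_mul_self, Complex.normSq_eq_norm_sq]
  rw [h, Complex.re_ofReal_mul]

/-- it suffices to check the sign of the form on the unit sphere -/
theorem pos_of_sphere {n : ℕ} {A : Matrix (Fin n) (Fin n) ℂ} {W : Submodule ℂ (Fin n → ℂ)}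
    (h : ∀ x ∈ W, ‖x‖ = 1 → form A x < 0) : ∀ x ∈ W, x ≠ 0 → form A x < 0 := by
  intro x hx hx0
  have hn : ‖x‖ ≠ 0 := norm_ne_zero_iff.2 hx0
  have hpos : 0 < ‖x‖ := norm_pos_iff.2 hx0
  have h1 := h (((‖x‖⁻¹ : ℝ) : ℂ) • x) (W.smul_mem _ hx) (by
    rw [norm_smul, Complex.norm_real, norm_inv, norm_norm, inv_mul_cancel₀ hn])
  rw [form_smul] at h1
  have h2 : 0 < ‖((‖x‖⁻¹ : ℝ) : ℂ)‖ ^ 2 := by
    rw [Complex.norm_real, norm_inv, norm_norm]; positivity
  by_contra hc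
  push Not at hc
  exact absurd h1 (not_lt.2 (mul_nonneg h2.le hc))

/-- the unit sphere of a subspace is compact -/
theorem compact_sphere {n : ℕ} (W : Submodule ℂ (Fin n → ℂ)) :
    IsCompact {x : Fin n → ℂ | x ∈ W ∧ ‖x‖ = 1} := by
  have h1 : IsCompact (Metric.sphere (0 : Fin n → ℂ) 1) := isCompact_sphere _ _
  have h2 : IsClosed (W : Set (Fin n → ℂ)) := W.closed_of_finiteDimensional
  have h3 : {x : Fin n → ℂ | x ∈ W ∧ ‖x‖ = 1} = Metric.sphere (0 : Fin n → ℂ) 1 ∩ (W : Set _) := by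
    ext x
    simp [and_comm]
  rw [h3]
  exact h1.inter_right h2

theorem continuous_form {n : ℕ} :
    Continuous fun p : Matrix (Fin n) (Fin n) ℂ × (Fin n → ℂ) => form p.1 p.2 := by
  unfold form
  refine Complex.continuous_re.comp ?_
  exact Continuous.dotProduct (continuous_star.comp continuous_snd)
    (Continuous.matrix_mulVec continuous_fst continuous_snd)

theorem finrank_ker {m n : ℕ} (U : Matrix (Fin m) (Fin n) ℂ) :
    U.rank + Module.finrank ℂ (LinearMap.ker U.mulVecLin) = n := by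
  have := LinearMap.finrank_range_add_finrank_ker U.mulVecLin
  simpa [Matrix.rank] using this

end Pool.Agent.H47.BL.Aux91
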