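import Pool.Agent.H47.BL.Stm2

/-! # BL, REALIZE: every self-reciprocal polynomial times `X + 1` is `det (X V + Vᵀ)` (helper51) -/

set_option autoImplicit false

namespace Pool.Agent.H47.BL.REALIZE

open Matrix Polynomial

/-- the coefficients of `(X + 1) f` above the middle -/
def ee (f : ℤ[X]) (g t : ℕ) : ℤ := f.coeff (g + t) + f.coeff (g + t + 1)

theorem poly_id (g : ℕ) (f : ℤ[X]) (hd : f.natDegree ≤ 2 * g)
    (hs : ∀ j ≤ 2 * g, f.coeff j = f.coeff (2 * g - j)) :
    (X + 1) * f = ∑ t ∈ Finset.range (g + 1), C (ee f g t) * (X ^ (g - t) + X ^ (g + 1 + t)) := by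
  have h1 : ((X + 1) * f).natDegree < (g + 1) + (g + 1) := by
    refine lt_of_le_of_lt (natDegree_mul_le) ?_
    have : (X + 1 : ℤ[X]).natDegree ≤ 1 := by
      have : (X + 1 : ℤ[X]) = X + C 1 := by simp
      rw [this, natDegree_X_add_C]
    omega
  have h2 := Polynomial.as_sum_range' ((X + 1) * f) _ h1
  rw [h2, Finset.sum_range_add, ← Finset.sum_range_reflect, ← Finset.sum_add_distrib]
  refine Finset.sum_congr rfl fun t ht => ?_
  have htg : t ≤ g := by have := Finset.mem_range.1 ht; omega
  have e1 : g + 1 - 1 - t = g - t := by omega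
  have c2 : ((X + 1) * f).coeff (g + 1 + t) = ee f g t := by
    unfold ee
    rw [add_mul, one_mul, coeff_add, show g + 1 + t = g + t + 1 by ring, coeff_X_mul]
  have c1 : ((X + 1) * f).coeff (g - t) = ee f g t := by
    unfold ee
    rw [add_mul, one_mul, coeff_add]
    rcases Nat.eq_or_lt_of_le htg with rfl | hlt
    · rw [Nat.sub_self, coeff_X_mul_zero, hs 0 (by omega), Nat.sub_zero,
        coeff_eq_zero_of_natDegree_lt (n := t + t + 1) (by omega), show 2 * t = t + t by ring]
      ring
    · obtain ⟨m, hm⟩ : ∃ m, g - t = m + 1 := ⟨g - t - 1, by omega⟩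
      rw [hm, coeff_X_mul, hs m (by omega), hs (m + 1) (by omega),
        show 2 * g - m = g + t + 1 by omega, show 2 * g - (m + 1) = g + t by omega]
      ring
  rw [e1, c1, c2, ← C_mul_X_pow_eq_monomial, ← C_mul_X_pow_eq_monomial]
  ring

/-- lower shift -/
noncomputable def N (g : ℕ) (i j : Fin g) : ℤ[X] := if i.val = j.val + 1 then 1 else 0

noncomputable def ep (g : ℕ) (i : Fin g) : ℤ[X] := if i.val = 0 then 1 else 0

noncomputable def D (g : ℕ) : Matrix (Fin g) (Fin g) ℤ[X] :=
  Matrix.of fun i j => (if i = j then 1 else 0) - X * N g i j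

noncomputable def E (g : ℕ) : Matrix (Fin g) (Fin g) ℤ[X] :=
  Matrix.of fun i j => (if i = j then X else 0) - N g j i

theorem det_D (g : ℕ) : (D g).det = 1 := by
  rw [Matrix.det_of_isLowerTriangular]
  · refine Finset.prod_eq_one fun i _ => ?_
    simp [D, N]
  · intro i j hij
    have hij' : i < j := hij
    have h1 : i ≠ j := ne_of_lt hij'
    have h2 : ¬ i.val = j.val + 1 := by have := Fin.lt_def.1 hij'; omega
    simp [D, N, h1, h2]

theorem det_E (g : ℕ) : (E g).det = X ^ g := by
  rw [Matrix.det_of_isUpperTriangular]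
  · rw [Finset.prod_congr rfl (g := fun _ => X)]
    · simp
    · intro i _
      simp [E, N]
  · intro i j hij
    have hij' : j < i := hij
    have h1 : i ≠ j := (ne_of_lt hij').symm
    have h2 : ¬ j.val = i.val + 1 := by have := Fin.lt_def.1 hij'; omega
    simp [E, N, h1, h2]

/-- `(I - X N) u = X ε` for `u_j = X ^ (j + 1)` -/
theorem D_mul (g : ℕ) (i : Fin g) : ∑ j, D g i j * X ^ (j.val + 1) = X * ep g i := by
  unfold D N ep
  simp only [Matrix.of_apply, sub_mul, Finset.sum_sub_distrib, ite_mul, one_mul, zero_mul,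
    Finset.sum_ite_eq, Finset.mem_univ, if_true]
  by_cases hi : i.val = 0
  · rw [if_pos hi, Finset.sum_eq_zero, hi]
    · ring
    · intro j _
      rw [if_neg (by omega)]; ring
  · rw [if_neg hi, Finset.sum_eq_single (⟨i.val - 1, by omega⟩ : Fin g)]
    · rw [if_pos (by simp; omega)]
      have : i.val - 1 + 1 = i.val := by omega
      simp only [this]
      ring
    · intro j _ hj
      rw [if_neg]
      · ring
      · intro h
        apply hj
        ext
        simp only
        omega
    · intro h; exact absurd (Finset.mem_univ _) h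

/-- `vᵀ (X I - Nᵀ) = X ^ g εᵀ` for `v_j = X ^ (g - 1 - j)` -/
theorem mul_E (g : ℕ) (j : Fin g) : ∑ i, X ^ (g - 1 - i.val) * E g i j = X ^ g * ep g j := by
  unfold E N ep
  simp only [Matrix.of_apply, mul_sub, Finset.sum_sub_distrib, mul_ite, mul_one, mul_zero,
    Finset.sum_ite_eq', Finset.mem_univ, if_true]
  by_cases hj : j.val = 0
  · rw [if_pos hj, Finset.sum_eq_zero, hj, ← pow_succ]
    · rw [show g - 1 - 0 + 1 = g by omega]; ring
    · intro i _
      rw [if_neg (by omega)]
  · rw [if_neg hj, Finset.sum_eq_single (⟨j.val - 1, by omega⟩ : Fin g)]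
    · rw [if_pos (by simp; omega), ← pow_succ]
      simp only
      rw [show g - 1 - (j.val - 1) = g - 1 - j.val + 1 by omega]
      ring
    · intro i _ hi
      rw [if_neg]
      intro h
      apply hi
      ext
      simp only
      omega
    · intro h; exact absurd (Finset.mem_univ _) h

/-- the companion-like determinant -/
theorem det_P (g : ℕ) (a : ℤ[X]) (k : Fin g → ℤ[X]) :
    (fromBlocks (Matrix.of fun _ _ : Unit => a) (Matrix.of fun (_ : Unit) j => ep g j)
      (Matrix.of fun i (_ : Unit) => k i) (E g)).det = X ^ g * a - ∑ j, X ^ (g - 1 - j.val) * k j := by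
  have h1 : fromBlocks (Matrix.of fun _ _ : Unit => (X ^ g : ℤ[X]))
      (Matrix.of fun (_ : Unit) (j : Fin g) => - (X ^ (g - 1 - j.val) : ℤ[X])) 0 1 *
      fromBlocks (Matrix.of fun _ _ : Unit => a) (Matrix.of fun (_ : Unit) j => ep g j)
      (Matrix.of fun i (_ : Unit) => k i) (E g) =
      fromBlocks (Matrix.of fun _ _ : Unit => X ^ g * a - ∑ j, X ^ (g - 1 - j.val) * k j) 0
      (Matrix.of fun i (_ : Unit) => k i) (E g) := by
    rw [fromBlocks_multiply]
    congr 1
    · ext i j
      simp [Matrix.mul_apply, sub_eq_add_neg, Finset.sum_neg_distrib]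
    · ext i j
      have := mul_E g j
      simp only [Matrix.add_apply, Matrix.mul_apply, Matrix.of_apply, Finset.univ_unique,
        Finset.sum_singleton, neg_mul, Finset.sum_neg_distrib, this, Matrix.zero_apply]
      ring_nf
    · simp
    · simp
  have h2 := congrArg Matrix.det h1
  rw [det_mul, det_fromBlocks_zero₂₁, det_fromBlocks_zero₁₂, det_E, det_one] at h2
  simp only [det_unique, Matrix.of_apply, mul_one] at h2
  have h3 : (X ^ g : ℤ[X]) ≠ 0 := pow_ne_zero _ X_ne_zero
  have h4 : (X ^ g : ℤ[X]) * (fromBlocks (Matrix.of fun _ _ : Unit => a)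
      (Matrix.of fun (_ : Unit) j => ep g j)
      (Matrix.of fun i (_ : Unit) => k i) (E g)).det =
      X ^ g * (X ^ g * a - ∑ j, X ^ (g - 1 - j.val) * k j) := by
    rw [h2]; ring
  exact mul_left_cancel₀ h3 h4

/-- the index type -/
abbrev I (g : ℕ) := (Unit ⊕ Fin g) ⊕ Fin g

/-- the integer matrix -/
def V (g : ℕ) (e₀ : ℤ) (k : Fin g → ℤ) : Matrix (I g) (I g) ℤ :=
  Matrix.of fun i j => match i, j with
    | .inl (.inl _), .inl (.inl _) => e₀
    | .inl (.inl _), .inl (.inr _) => 0
    | .inl (.inl _), .inr j => k j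
    | .inl (.inr i), .inl (.inl _) => if i.val = 0 then 1 else 0
    | .inl (.inr _), .inl (.inr _) => 0
    | .inl (.inr i), .inr j => if i.val = j.val + 1 then -1 else 0
    | .inr _, .inl (.inl _) => 0
    | .inr i, .inl (.inr j) => if i = j then 1 else 0
    | .inr _, .inr _ => 0

/-- swap of the second and the third block -/
def sw (g : ℕ) : Equiv.Perm (I g) where
  toFun := fun
    | .inl (.inl u) => .inl (.inl u)
    | .inl (.inr i) => .inr i
    | .inr i => .inl (.inr i)
  invFun := fun
    | .inl (.inl u) => .inl (.inl u)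
    | .inl (.inr i) => .inr i
    | .inr i => .inl (.inr i)
  left_inv := by rintro ((u | i) | i) <;> rfl
  right_inv := by rintro ((u | i) | i) <;> rfl

noncomputable def M (g : ℕ) (e₀ : ℤ) (k : Fin g → ℤ) : Matrix (I g) (I g) ℤ[X] :=
  Matrix.of fun i j => C (V g e₀ k i j) * X + C (V g e₀ k j i)

theorem M_sw (g : ℕ) (e₀ : ℤ) (k : Fin g → ℤ) :
    (M g e₀ k).submatrix (sw g) id = fromBlocks
      (fromBlocks (Matrix.of fun _ _ : Unit => C e₀ * (X + 1)) (Matrix.of fun (_ : Unit) j => ep g j)
        (Matrix.of fun i (_ : Unit) => C (k i)) (E g))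
      (Matrix.of fun i j => match i with
        | .inl _ => X * C (k j)
        | .inr _ => 0)
      (Matrix.of fun i j => match j with
        | .inl _ => X * ep g i
        | .inr _ => 0) (D g) := by
  ext1 i j
  rcases i with (u | i) | i <;> rcases j with (u' | j) | j
  · simp [M, V, sw]; ring
  · simp [M, V, sw, ep]
  · simp [M, V, sw]; ring
  · simp [M, V, sw]
  · simp [M, V, sw, E, N]
    split_ifs <;> simp_all
  · simp [M, V, sw]
  · simp [M, V, sw, ep]
  · simp [M, V, sw]
  · simp [M, V, sw, D, N]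
    by_cases h2 : i = j
    · subst h2; simp
    · have h3 : j ≠ i := fun h => h2 h.symm
      rw [if_neg h2, if_neg h3]
      by_cases h1 : i.val = j.val + 1
      · rw [if_pos h1, if_pos h1]; ring
      · rw [if_neg h1, if_neg h1]; ring

theorem det_M_sw (g : ℕ) (e₀ : ℤ) (k : Fin g → ℤ) :
    ((M g e₀ k).submatrix (sw g) id).det =
      X ^ g * (C e₀ * (X + 1) - ∑ j, X * C (k j) * X ^ (j.val + 1)) -
        ∑ j, X ^ (g - 1 - j.val) * C (k j) := by
  rw [M_sw]
  have h1 : fromBlocks
      (fromBlocks (Matrix.of fun _ _ : Unit => C e₀ * (X + 1)) (Matrix.of fun (_ : Unit) j => ep g j)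
        (Matrix.of fun i (_ : Unit) => C (k i)) (E g))
      (Matrix.of fun (i : Unit ⊕ Fin g) (j : Fin g) => match i with
        | .inl _ => X * C (k j)
        | .inr _ => 0)
      (Matrix.of fun (i : Fin g) (j : Unit ⊕ Fin g) => match j with
        | .inl _ => X * ep g i
        | .inr _ => 0) (D g) *
      fromBlocks 1 0 (Matrix.of fun (i : Fin g) (j : Unit ⊕ Fin g) => match j with
        | .inl _ => - (X ^ (i.val + 1) : ℤ[X])
        | .inr _ => 0) 1 =
      fromBlocks (fromBlocks (Matrix.of fun _ _ : Unit =>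
          C e₀ * (X + 1) - ∑ j, X * C (k j) * X ^ (j.val + 1)) (Matrix.of fun (_ : Unit) j => ep g j)
        (Matrix.of fun i (_ : Unit) => C (k i)) (E g))
      (Matrix.of fun (i : Unit ⊕ Fin g) (j : Fin g) => match i with
        | .inl _ => X * C (k j)
        | .inr _ => 0) 0 (D g) := by
    rw [fromBlocks_multiply]
    congr 1
    · ext1 i j
      rcases i with u | i <;> rcases j with u' | j
      · simp [Matrix.mul_apply, Finset.sum_neg_distrib, sub_eq_add_neg]
      · simp [Matrix.mul_apply]
      · simp [Matrix.mul_apply]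
      · simp [Matrix.mul_apply]
    · simp
    · ext1 i j
      rcases j with u' | j
      · have := D_mul g i
        simp only [Matrix.add_apply, Matrix.mul_one, Matrix.mul_apply, Matrix.of_apply, mul_neg,
          Finset.sum_neg_distrib, this, Matrix.zero_apply]
        ring_nf
      · simp [Matrix.mul_apply]
    · simp
  have h2 := congrArg Matrix.det h1
  rw [det_mul, det_fromBlocks_zero₂₁, det_fromBlocks_zero₁₂, det_D, det_P, det_one, det_one,
    mul_one, mul_one, mul_one] at h2
  exact h2

theorem main : S_REALIZE := by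
  intro g f hd hs
  set k : Fin g → ℤ := fun j => - ee f g (j.val + 1) with hk
  have hdet : ((M g (ee f g 0) k).submatrix (sw g) id).det = (X + 1) * f := by
    rw [det_M_sw, poly_id g f hd hs, Finset.sum_range_succ', ← Fin.sum_univ_eq_sum_range
      (fun t => C (ee f g (t + 1)) * (X ^ (g - (t + 1)) + X ^ (g + 1 + (t + 1)))) g,
      mul_sub, Finset.mul_sum, sub_sub, ← Finset.sum_add_distrib]
    have : ∑ j : Fin g, (X ^ g * (X * C (k j) * X ^ (j.val + 1)) + X ^ (g - 1 - j.val) * C (k j)) =
        - ∑ j : Fin g, C (ee f g (j.val + 1)) * (X ^ (g - (j.val + 1)) + X ^ (g + 1 + (j.val + 1))) := by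
      rw [← Finset.sum_neg_distrib]
      refine Finset.sum_congr rfl fun j _ => ?_
      rw [hk]
      simp only [C_neg]
      rw [show g - 1 - j.val = g - (j.val + 1) by omega]
      ring
    rw [this]
    simp only [Nat.sub_zero, add_zero]
    ring
  have hp := Matrix.det_permute (sw g) (M g (ee f g 0) k)
  rw [hdet] at hp
  have hcard : Fintype.card (I g) = 2 * g + 1 := by
    simp only [Fintype.card_sum, Fintype.card_unit, Fintype.card_fin]
    ring
  let e : I g ≃ Fin (2 * g + 1) := Fintype.equivFinOfCardEq hcard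
  -- the sign
  obtain ⟨s, hs1, hs2⟩ : ∃ s : ℤ, s * s = 1 ∧ ((M g (ee f g 0) k).det = C s * ((X + 1) * f)) := by
    rcases Int.units_eq_one_or (Equiv.Perm.sign (sw g)) with h | h
    · refine ⟨1, by norm_num, ?_⟩
      rw [hp, h]; simp
    · refine ⟨-1, by norm_num, ?_⟩
      rw [hp, h]; simp
  refine ⟨(s • V g (ee f g 0) k).submatrix e.symm e.symm, ?_⟩
  unfold formZ
  have h1 : (Matrix.of fun i j => C ((s • V g (ee f g 0) k).submatrix e.symm e.symm i j) * X +
      C ((s • V g (ee f g 0) k).submatrix e.symm e.symm j i)) =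
      ((C s : ℤ[X]) • M g (ee f g 0) k).submatrix e.symm e.symm := by
    ext1 i j
    simp only [Matrix.of_apply, Matrix.submatrix_apply, Matrix.smul_apply, M, smul_eq_mul, C_mul]
    ring
  rw [h1, Matrix.det_submatrix_equiv_self, Matrix.det_smul, hs2, hcard, pow_succ, pow_mul,
    ← C_pow, show s ^ 2 = 1 by rw [pow_two, hs1]]
  rw [C_1, one_pow, one_mul, ← mul_assoc, ← C_mul, hs1, C_1, one_mul]

end Pool.Agent.H47.BL.REALIZE
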