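import Pool.Agent.H47.BL.T.Sec

set_option autoImplicit false

/-! BL-SW3 (helper29) -/

namespace Pool.Agent.H47.BL.SW3

open Matrix Polynomial Filter Topology
open Pool.Agent.H47.BL.Sec

theorem main (hL : S_LOC) (hR : S_REFL) : S_SW3 := by
  intro n V hV a b ha hb hab na nb
  have hpi := Real.pi_pos
  have r := hR n V a
  have l := (hL n V hV b (2 * Real.pi - a) (by linarith) (by linarith) nb
    (by rw [r.2.2.1]; exact na)).2
  have c := Z_add V (α := -a) (β := b) (γ := b) (δ := 2 * Real.pi - a) le_rfl (by linarith)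
  have r4 := r.2.2.2
  omega

end Pool.Agent.H47.BL.SW3
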