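import Pool.Agent.H47.BL.Stm

set_option autoImplicit false

/-! BL: counting zeros in sectors (helper29) -/

namespace Pool.Agent.H47.BL.Sec

open Matrix Polynomial Filter Topology

variable {n : ℕ}

theorem e_add_two_pi (θ : ℝ) : e (θ + 2 * Real.pi) = e θ := by
  unfold e
  push_cast
  rw [add_mul, Complex.exp_add, Complex.exp_two_pi_mul_I, mul_one]

theorem e_sub_two_pi (θ : ℝ) : e (θ - 2 * Real.pi) = e θ := by
  have := e_add_two_pi (θ - 2 * Real.pi)
  rw [sub_add_cancel] at this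
  exact this.symm

theorem norm_e (θ : ℝ) : ‖e θ‖ = 1 := Complex.norm_exp_ofReal_mul_I θ

theorem e_ne (θ : ℝ) : e θ ≠ 0 := Complex.exp_ne_zero _

/-- equal values differ by a period -/
theorem e_eq {θ φ : ℝ} (h : e θ = e φ) : ∃ k : ℤ, θ = φ + k * (2 * Real.pi) := by
  unfold e at h
  rw [Complex.exp_eq_exp_iff_exists_int] at h
  obtain ⟨k, hk⟩ := h
  refine ⟨k, ?_⟩
  have h1 : ((θ : ℂ) - φ - k * (2 * Real.pi)) * Complex.I = 0 := by
    linear_combination hk
  have h2 := (mul_eq_zero.1 h1).resolve_right Complex.I_ne_zero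
  have h3 : θ - φ - k * (2 * Real.pi) = 0 := by exact_mod_cast h2
  linarith

theorem e_inj {θ φ : ℝ} (h : e θ = e φ) (h1 : |θ - φ| < 2 * Real.pi) : θ = φ := by
  obtain ⟨k, hk⟩ := e_eq h
  have hk0 : k = 0 := by
    by_contra hne
    have h2 : (1 : ℝ) ≤ |(k : ℝ)| := by
      have := Int.one_le_abs hne
      exact_mod_cast this
    have h3 : θ - φ = k * (2 * Real.pi) := by linarith
    rw [h3, abs_mul, abs_of_pos (by positivity : (0 : ℝ) < 2 * Real.pi)] at h1
    have := Real.pi_pos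
    nlinarith
  rw [hk0] at hk
  simpa using hk

theorem continuous_e : Continuous e := by
  unfold e
  fun_prop

theorem arg_e {θ : ℝ} {r : ℝ} (hr : 0 < r) (h1 : -Real.pi < θ) (h2 : θ ≤ Real.pi) :
    ((r : ℂ) * e θ).arg = θ := by
  unfold e
  rw [Complex.exp_mul_I]
  exact Complex.arg_mul_cos_add_sin_mul_I hr ⟨h1, h2⟩

theorem sector_iff {α β : ℝ} (h1 : -Real.pi ≤ α) (h2 : β ≤ Real.pi) (w : ℂ) :
    sector α β w ↔ w ≠ 0 ∧ α < w.arg ∧ w.arg < β := by
  constructor
  · rintro ⟨hw, θ, a1, a2, a3⟩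
    have hn : 0 < ‖w‖ := norm_pos_iff.2 hw
    have h3 : w.arg = θ := by
      rw [a3]
      exact arg_e hn (by linarith) (by linarith)
    rw [h3]
    exact ⟨hw, a1, a2⟩
  · rintro ⟨hw, a1, a2⟩
    exact ⟨hw, w.arg, a1, a2, (Complex.norm_mul_exp_arg_mul_I w).symm⟩

/-- the same angle in two sectors -/
theorem sector_two {w : ℂ} {θ φ : ℝ} (hw : w ≠ 0) (h1 : w = ‖w‖ * e θ) (h2 : w = ‖w‖ * e φ) :
    e θ = e φ := by
  have h3 : (‖w‖ : ℂ) ≠ 0 := by
    rw [Ne, Complex.ofReal_eq_zero, norm_eq_zero]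
    exact hw
  rw [h1] at h2
  have h4 : (‖w‖ : ℂ) * e θ = ‖w‖ * e φ := by
    have h5 : ‖(‖w‖ : ℂ) * e θ‖ = ‖w‖ := by rw [← h1]
    rw [h5] at h2
    exact h2
  exact mul_left_cancel₀ h3 h4

/-- two sectors in a range of angles of length at most `2 π` are disjoint -/
theorem sector_disj {α β γ δ : ℝ} (h1 : β ≤ γ) (h2 : δ ≤ α + 2 * Real.pi) {w : ℂ}
    (ha : sector α β w) (hb : sector γ δ w) : False := by
  obtain ⟨hw, θ, a1, a2, a3⟩ := ha
  obtain ⟨-, φ, b1, b2, b3⟩ := hb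
  have h := sector_two hw a3 b3
  have := e_inj h (by rw [abs_lt]; constructor <;> linarith)
  linarith

theorem sector_mono {α β α' β' : ℝ} (h1 : α' ≤ α) (h2 : β ≤ β') {w : ℂ} (h : sector α β w) :
    sector α' β' w := by
  obtain ⟨hw, θ, a1, a2, a3⟩ := h
  exact ⟨hw, θ, by linarith, by linarith, a3⟩

theorem sector_shift (α β : ℝ) (w : ℂ) :
    sector (α + 2 * Real.pi) (β + 2 * Real.pi) w ↔ sector α β w := by
  constructor
  · rintro ⟨hw, θ, a1, a2, a3⟩
    exact ⟨hw, θ - 2 * Real.pi, by linarith, by linarith, by rw [e_sub_two_pi]; exact a3⟩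
  · rintro ⟨hw, θ, a1, a2, a3⟩
    exact ⟨hw, θ + 2 * Real.pi, by linarith, by linarith, by rw [e_add_two_pi]; exact a3⟩

theorem Z_shift (V : Matrix (Fin n) (Fin n) ℝ) (α β : ℝ) :
    Z V (α + 2 * Real.pi) (β + 2 * Real.pi) = Z V α β := by
  classical
  unfold Z
  congr 1
  exact Multiset.filter_congr fun w _ => sector_shift α β w

/-- counting in two disjoint sets -/
theorem card_two (s : Multiset ℂ) (P Q R : ℂ → Prop) {dP : DecidablePred P} {dQ : DecidablePred Q}
    {dR : DecidablePred R} (h : ∀ w, P w → Q w → False)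
    (hP : ∀ w, P w → R w) (hQ : ∀ w, Q w → R w) :
    (s.filter P).card + (s.filter Q).card ≤ (s.filter R).card := by
  rw [← Multiset.card_add, Multiset.filter_add_filter]
  have h0 : s.filter (fun a => P a ∧ Q a) = 0 :=
    Multiset.filter_eq_nil.2 fun a _ hPQ => h a hPQ.1 hPQ.2
  rw [h0, add_zero]
  refine Multiset.card_le_card (Multiset.monotone_filter_right s fun w hw => ?_)
  rcases hw with hw | hw
  · exact hP w hw
  · exact hQ w hw

theorem card_two' (s : Multiset ℂ) (P Q : ℂ → Prop) {dP : DecidablePred P} {dQ : DecidablePred Q}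
    (h : ∀ w, P w → Q w → False) :
    (s.filter P).card + (s.filter Q).card ≤ s.card := by
  rw [← Multiset.card_add, Multiset.filter_add_filter]
  have h0 : s.filter (fun a => P a ∧ Q a) = 0 :=
    Multiset.filter_eq_nil.2 fun a _ hPQ => h a hPQ.1 hPQ.2
  rw [h0, add_zero]
  exact Multiset.card_le_card (Multiset.filter_le _ _)

theorem card_roots (V : Matrix (Fin n) (Fin n) ℝ) : (pol V).roots.card ≤ n := by
  refine (Polynomial.card_roots' _).trans ?_
  have h1 : pol V = det ((X : ℂ[X]) • (cx V).map C + (cx Vᵀ).map C) := by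
    unfold pol
    congr 1
    ext1 i j
    simp only [Matrix.of_apply, Matrix.add_apply, Matrix.smul_apply, Matrix.map_apply, cx,
      smul_eq_mul, Matrix.transpose_apply]
    ring
  rw [h1]
  have := Polynomial.natDegree_det_X_add_C_le (cx V) (cx Vᵀ)
  rwa [Fintype.card_fin] at this

theorem Z_add (V : Matrix (Fin n) (Fin n) ℝ) {α β γ δ : ℝ} (h1 : β ≤ γ)
    (h2 : δ ≤ α + 2 * Real.pi) : Z V α β + Z V γ δ ≤ n := by
  classical
  exact (card_two' (pol V).roots (sector α β) (sector γ δ)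
    (fun w => sector_disj h1 h2)).trans (card_roots V)

/-- near every angle there are no zeros at the other angles -/
theorem ev_root {f : ℂ[X]} (hf : f ≠ 0) (θ₀ : ℝ) :
    ∀ᶠ θ in 𝓝[≠] θ₀, f.rootMultiplicity (e θ) = 0 := by
  classical
  have h1 : ∀ w ∈ f.roots.toFinset, ∀ᶠ θ in 𝓝[≠] θ₀, e θ ≠ w := by
    intro w _
    by_cases hw : w = e θ₀
    · have h2 : ∀ᶠ θ in 𝓝 θ₀, |θ - θ₀| < 2 * Real.pi := by
        have := Metric.ball_mem_nhds θ₀ (by positivity : (0 : ℝ) < 2 * Real.pi)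
        filter_upwards [this] with θ hθ
        rwa [Metric.mem_ball, Real.dist_eq] at hθ
      filter_upwards [eventually_nhdsWithin_of_eventually_nhds h2, self_mem_nhdsWithin] with
        θ a1 a2
      rw [hw]
      intro h3
      exact a2 (e_inj h3 a1)
    · have h2 : ∀ᶠ θ in 𝓝 θ₀, e θ ≠ w :=
        continuous_e.continuousAt.eventually_ne (Ne.symm hw)
      exact eventually_nhdsWithin_of_eventually_nhds h2
  have h2 := (Filter.eventually_all_finset f.roots.toFinset).2 h1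
  filter_upwards [h2] with θ hθ
  rw [Polynomial.rootMultiplicity_eq_zero]
  intro hr
  exact hθ (e θ) (by rw [Multiset.mem_toFinset, Polynomial.mem_roots hf]; exact hr) rfl

theorem ev_nul (hM : S_MULT) {V : Matrix (Fin n) (Fin n) ℝ} (hV : pol V ≠ 0) (θ₀ : ℝ) :
    ∀ᶠ θ in 𝓝[≠] θ₀, nul (H V θ) = 0 := by
  filter_upwards [ev_root hV θ₀] with θ hθ
  have := hM n V θ hV
  omega

end Pool.Agent.H47.BL.Sec
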